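import Pool.Agent.Lib.MP_6e81d8_ag.H88Limit

/-!
Points on a horizontal line and a triangle of monomials read by columns.
-/

set_option autoImplicit false

namespace Pool.Agent.Lib.MP_6e81d8_ag.H87

open Polynomial Finset H88
open scoped Polynomial.Bivariate

lemma sum_le_natDegree {ι : Type} [Fintype ι] {x : ι → ℂ} (hx : Function.Injective x)
    {k : ι → ℕ} {ψ : ℂ[X]} (h0 : ψ ≠ 0) (h : ∀ i, (X - C (x i)) ^ k i ∣ ψ) :
    ∑ i, k i ≤ ψ.natDegree := by
  have h1 : ∏ i, (X - C (x i)) ^ k i ∣ ψ :=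
    Finset.prod_dvd_of_coprime (fun i _ j _ hij => ((pairwise_coprime_X_sub_C hx) hij).pow)
      fun i _ => h i
  have h2 := natDegree_le_of_dvd h1 h0
  rw [natDegree_prod_of_monic _ _ fun i _ => (monic_X_sub_C _).pow _] at h2
  simpa only [natDegree_pow, natDegree_X_sub_C, mul_one] using h2

lemma exists_far {J : Finset ℕ} {x : ℕ} (h : x + 1 ≤ J.card) :
    ∃ a ∈ J, ∃ b ∈ J, a + x ≤ b := by
  have hJ : J.Nonempty := card_pos.mp (by omega)
  refine ⟨J.min' hJ, min'_mem _ _, J.max' hJ, max'_mem _ _, ?_⟩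
  have h1 : J ⊆ Icc (J.min' hJ) (J.max' hJ) := fun a ha =>
    mem_Icc.mpr ⟨min'_le _ _ ha, le_max' _ _ ha⟩
  have h2 := card_le_card h1
  rw [Nat.card_Icc] at h2
  omega

theorem column_emp {n d : ℕ} {m : Fin n → ℕ} {z : Fin n → ℂ} (hz : Function.Injective z)
    (hz0 : ∀ i, z i ≠ 0) {ν : ℝ} (h3 : 3 ≤ ν) (hn : (n : ℝ) ≤ ν ^ 2)
    {D : ℕ → ℕ → Prop}
    (hD : ∀ i j, D i j → ((d : ℝ) - 3 * j) * (ν - 3) ≤ i ∧ (i : ℝ) ≤ ((d : ℝ) - 3 * j) * ν)
    (hd : ν * d < ∑ i, (m i : ℝ) ∨ ν * d ≤ ∑ i, (m i : ℝ) ∧ 3 < ν ∧ 0 < d ∧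
      ∀ i j, D i j → (i : ℝ) < ((d : ℝ) - 3 * j) * ν ∨ (d : ℝ) = 3 * j) :
    Emp D m z (fun _ => 1) := by
  classical
  intro f hf hv
  by_contra hne
  let J : ℕ → Finset ℕ := fun i => (range (f.natDegree + 1)).filter fun k => cf f i k ≠ 0
  have hJ : ∀ i k, k ∈ J i ↔ cf f i k ≠ 0 := by
    intro i k
    refine ⟨fun h => (mem_filter.mp h).2, fun h => mem_filter.mpr ⟨mem_range.mpr ?_, h⟩⟩
    exact Nat.lt_succ_of_le (le_natDegree_of_ne_zero fun h1 => h (by rw [cf, h1, coeff_zero]))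
  have hex : ∃ x i, (J i).card = x + 1 := by
    obtain ⟨i, k, h⟩ := exists_cf_ne_zero hne
    have := card_pos.mpr ⟨k, (hJ i k).mpr h⟩
    exact ⟨(J i).card - 1, i, by omega⟩
  obtain ⟨i0, hi0⟩ := Nat.find_spec hex
  set x := Nat.find hex with hx
  have hmin : ∀ i, (J i).Nonempty → x + 1 ≤ (J i).card := by
    intro i hi
    have h1 := card_pos.mpr hi
    have h2 : x ≤ (J i).card - 1 := Nat.find_min' hex ⟨i, by omega⟩
    omega
  obtain ⟨j0, hj0⟩ : (J i0).Nonempty := card_pos.mp (by omega)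
  set U := (J i0).erase j0 with hU
  have hUc : U.card = x := by rw [hU, card_erase_of_mem hj0, hi0, Nat.add_sub_cancel]
  set ψ : ℂ[X] := ∑ k ∈ range (f.natDegree + 1), C (∏ u ∈ U, ((k : ℂ) - u)) * f.coeff k with hψ
  have c1 : ∀ i, ψ.coeff i =
      ∑ k ∈ range (f.natDegree + 1), (∏ u ∈ U, ((k : ℂ) - u)) * cf f i k := by
    intro i
    simp only [hψ, finsetSum_coeff, coeff_C_mul, cf]
  have c2 : ψ ≠ 0 := by
    intro h0
    have h1 := c1 i0
    rw [h0, coeff_zero, sum_eq_single j0] at h1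
    · refine mul_ne_zero (prod_ne_zero_iff.mpr fun u hu h2 => ?_) ((hJ _ _).mp hj0) h1.symm
      exact (mem_erase.mp hu).1 (Nat.cast_injective (R := ℂ) (sub_eq_zero.mp h2)).symm
    · intro k _ hk
      by_cases h2 : cf f i0 k = 0
      · rw [h2, mul_zero]
      · rw [prod_eq_zero (mem_erase.mpr ⟨hk, (hJ _ _).mpr h2⟩) (sub_self _), zero_mul]
    · exact fun h2 => absurd (mem_filter.mp hj0).1 h2
  have c0 : ∀ i, ψ.coeff i ≠ 0 → ∃ a b, D i a ∧ D i b ∧ (a : ℝ) + x ≤ b := by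
    intro i hi
    rw [c1] at hi
    obtain ⟨k, -, hk⟩ := exists_ne_zero_of_sum_ne_zero hi
    obtain ⟨a, ha, b, hb, hab⟩ := exists_far (hmin i ⟨k, (hJ _ _).mpr (right_ne_zero_of_mul hk)⟩)
    exact ⟨a, b, hf _ _ ((hJ _ _).mp ha), hf _ _ ((hJ _ _).mp hb), by exact_mod_cast hab⟩
  have c3 : ∀ i, ψ.coeff i ≠ 0 → x * (ν * (ν - 3)) ≤ i ∧ (i : ℝ) ≤ ((d : ℝ) - 3 * x) * ν := by
    intro i hi
    obtain ⟨a, b, ha, hb, h4⟩ := c0 i hi
    have h1 := (hD _ _ ha).1
    have h2 := (hD _ _ hb).2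
    have h5 : (0 : ℝ) ≤ a := Nat.cast_nonneg a
    constructor
    · have h6 := mul_le_mul_of_nonneg_left h1 (show 0 ≤ ν by linarith)
      have h7 := mul_le_mul_of_nonneg_left h2 (show 0 ≤ ν - 3 by linarith)
      have h8 := mul_le_mul_of_nonneg_left h4 (show 0 ≤ ν * (ν - 3) by nlinarith)
      nlinarith
    · nlinarith
  have c4 : ∀ i, (X - C (z i)) ^ (m i - x) ∣ ψ := by
    intro i
    obtain ⟨G, g1, g2⟩ := exists_euler (hv i) U
    have h1 := van_transfer (evalRingHom (C 1 : ℂ[X])) (Ideal.span {(X - C (z i) : ℂ[X])})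
      (a := z i) (b := 1) (by simp) (by simp) g1
    rw [Ideal.span_singleton_pow, Ideal.mem_span_singleton, coe_evalRingHom, hUc] at h1
    have h2 : G.natDegree < f.natDegree + 1 := by
      rw [Nat.lt_succ_iff, natDegree_le_iff_coeff_eq_zero]
      intro k hk
      rw [g2, coeff_eq_zero_of_natDegree_lt hk, mul_zero]
    rw [eval_eq_sum_range' h2] at h1
    simpa only [g2, C_1, one_pow, mul_one] using h1
  have c5 := sum_le_natDegree (ι := Option (Fin n)) (x := fun o => o.elim 0 z)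
    (k := fun o => o.elim ψ.natTrailingDegree fun i => m i - x) ?_ c2 ?_
  · rw [Fintype.sum_option] at c5
    have h1 := (c3 _ (trailingCoeff_eq_zero.not.mpr c2)).1
    have h2 := (c3 _ (leadingCoeff_ne_zero.mpr c2)).2
    have h4 : (ψ.natTrailingDegree : ℝ) + ∑ i, ((m i - x : ℕ) : ℝ) ≤ ψ.natDegree := by
      exact_mod_cast c5
    have h5 : ∑ i, ((m i : ℝ) - x) ≤ ∑ i, ((m i - x : ℕ) : ℝ) := sum_le_sum fun i _ => by
      have : m i ≤ (m i - x) + x := by omega
      have : (m i : ℝ) ≤ (m i - x : ℕ) + x := by exact_mod_cast this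
      linarith
    rw [sum_sub_distrib, sum_const, card_univ, Fintype.card_fin, nsmul_eq_mul] at h5
    have h6 := mul_le_mul_of_nonneg_right hn (Nat.cast_nonneg x)
    rcases hd with hd | ⟨hd, h7, h8, h9⟩
    · nlinarith
    · obtain ⟨a, b, ha, hb, h10⟩ := c0 _ (leadingCoeff_ne_zero.mpr c2)
      have h11 : (0 : ℝ) ≤ a := Nat.cast_nonneg a
      have h12 : (0 : ℝ) ≤ x := Nat.cast_nonneg x
      have h13 : (ψ.natDegree : ℝ) < ((d : ℝ) - 3 * x) * ν := by
        rcases h9 _ _ hb with h13 | h13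
        · nlinarith
        · have h14 := (hD _ _ ha).1
          have h15 := (hD _ _ hb).2
          rw [h13, sub_self, zero_mul] at h15
          have h16 : (d : ℝ) - 3 * a ≤ 0 := by
            by_contra h16
            nlinarith [mul_pos (not_le.mp h16) (sub_pos.mpr h7)]
          have h17 : (0 : ℝ) < d := by exact_mod_cast h8
          have h18 : (x : ℝ) = 0 := by linarith
          rw [h18]
          nlinarith
      nlinarith
  · rintro (_ | i) (_ | j) h
    · rfl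
    · exact absurd h.symm (hz0 j)
    · exact absurd h (hz0 i)
    · exact congrArg some (hz h)
  · rintro (_ | i)
    · simp only [Option.elim_none, map_zero, sub_zero]
      rw [X_pow_dvd_iff]
      exact fun k hk => coeff_eq_zero_of_lt_natTrailingDegree hk
    · exact c4 i

end Pool.Agent.Lib.MP_6e81d8_ag.H87
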