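import Pool.Agent.Lib.MP_6e81d8_ag.H87.Core
import Pool.Agent.Lib.MP_6e81d8_ag.H87.Column

/-!
The bound on the degree of a plane curve with given multiplicities at general points.
-/

set_option autoImplicit false

namespace Pool.Agent.Lib.MP_6e81d8_ag.H87

open Polynomial Finset H88
open scoped Polynomial.Bivariate

lemma sup_symm {d : ℕ} {f : MvPolynomial (Fin 2) ℂ} (hf : f.totalDegree ≤ d) :
    Dg 0 d ((Bivariate.equivMvPolynomial ℂ).symm f) := by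
  rw [f.as_sum, map_sum]
  refine sum_induction _ (Dg 0 d) (fun _ _ => Dg.add) (dg_zero _ _) fun e he => ?_
  have h1 : e 0 + e 1 ≤ d := by
    have := MvPolynomial.le_totalDegree he
    rw [Finsupp.sum_fintype _ _ (fun _ => rfl), Fin.sum_univ_two] at this
    omega
  rw [MvPolynomial.monomial_eq, Finsupp.prod_fintype _ _ (fun _ => pow_zero _), Fin.prod_univ_two,
    map_mul, map_mul, map_pow, map_pow, Bivariate.equivMvPolynomial_symm_C,
    Bivariate.equivMvPolynomial_symm_X_0, Bivariate.equivMvPolynomial_symm_X_1, ← map_pow,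
    ← mul_assoc, ← map_mul]
  exact ((dg_C (d := e 0) (natDegree_C_mul_X_pow_le _ _)).mul (dg_Y (e 1))).mono (by omega)

lemma van_symm {m : ℕ} {p : Fin 2 → ℂ} {f : MvPolynomial (Fin 2) ℂ}
    (hf : f ∈ RingHom.ker (MvPolynomial.eval p) ^ m) :
    Van m (p 0) (p 1) ((Bivariate.equivMvPolynomial ℂ).symm f) := by
  let ψ : MvPolynomial (Fin 2) ℂ →+* ℂ[X][Y] :=
    (Bivariate.equivMvPolynomial ℂ).symm.toRingEquiv.toRingHom
  have hψ : ∀ g, ψ g = (Bivariate.equivMvPolynomial ℂ).symm g := fun _ => rfl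
  have h0 : (evalEvalRingHom (p 0) (p 1)).comp ψ = MvPolynomial.eval p := by
    apply MvPolynomial.ringHom_ext
    · intro r
      simp [hψ]
    · intro i
      fin_cases i <;> simp [hψ]
  have h1 : Ideal.map ψ (RingHom.ker (MvPolynomial.eval p)) ≤ mx (p 0) (p 1) := by
    rw [Ideal.map_le_iff_le_comap]
    intro g hg
    rw [Ideal.mem_comap, mem_mx_iff]
    rw [RingHom.mem_ker, ← h0] at hg
    exact hg
  have h2 := Ideal.mem_map_of_mem ψ hf
  rw [Ideal.map_pow] at h2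
  exact Ideal.pow_right_mono h1 m h2

lemma exists_par {r ε : ℝ} (hε : 0 < ε) :
    ∃ P : Par, r ≤ (P.g : ℝ) / (2 * P.b) + 2 ∧ (P.g : ℝ) / (2 * P.b) + 2 ≤ r + ε := by
  obtain ⟨k, hk⟩ := exists_nat_gt (1 / ε)
  have hk0 : (0 : ℝ) < k := lt_trans (by positivity) hk
  rw [div_lt_iff₀ hε] at hk
  have h1 := Int.le_ceil ((r - 2) * (2 * k))
  have h2 := Int.ceil_lt_add_one ((r - 2) * (2 * k))
  refine ⟨⟨2 * k, 2 * ⌈(r - 2) * (2 * k)⌉ + 1, by exact_mod_cast (by linarith : (0 : ℝ) < 2 * k),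
    fun ⟨c, hc⟩ => by rw [mul_assoc] at hc; omega⟩, ?_, ?_⟩
  · rw [← sub_le_iff_le_add, le_div_iff₀ (by push_cast; linarith)]
    push_cast
    linarith
  · rw [← le_sub_iff_add_le, div_le_iff₀ (by push_cast; linarith)]
    push_cast
    linarith

lemma cast_row {d j : ℕ} (h : 3 * j ≤ d) : (((d - 3 * j : ℕ) : ℤ) : ℝ) = (d : ℝ) - 3 * j := by
  rw [Int.cast_natCast, Nat.cast_sub h]
  push_cast
  rfl

lemma win_strict {n d : ℕ} {m : Fin n → ℕ} {z : Fin n → ℂ} (hz : Function.Injective z)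
    (hz0 : ∀ i, z i ≠ 0) (hn : 9 ≤ n) (h : √n * d < ∑ i, (m i : ℝ)) :
    ∃ P : Par, 2 * P.b ≤ P.g ∧ Emp (Win P d) m z (fun _ => 1) := by
  have hd0 : (0 : ℝ) ≤ d := Nat.cast_nonneg d
  obtain ⟨P, h1, h2⟩ := exists_par (r := √n) (ε := (∑ i, (m i : ℝ) - √n * d) / (d + 1))
    (div_pos (by linarith) (by linarith))
  set ν : ℝ := (P.g : ℝ) / (2 * P.b) + 2 with hν
  have hb : (0 : ℝ) < 2 * P.b := by exact_mod_cast (by linarith [P.hb] : 0 < 2 * P.b)
  have hg : (P.g : ℝ) = (ν - 2) * (2 * P.b) := by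
    rw [hν, add_sub_cancel_right, div_mul_cancel₀ _ hb.ne']
  have h3 : 3 ≤ ν := le_trans (Real.le_sqrt_of_sq_le (by exact_mod_cast hn)) h1
  have h4 : (n : ℝ) ≤ ν ^ 2 := by
    rw [← Real.sq_sqrt (Nat.cast_nonneg n)]
    exact pow_le_pow_left₀ (Real.sqrt_nonneg _) h1 2
  have h5 : ν * d < ∑ i, (m i : ℝ) := by
    have h6 := mul_le_mul_of_nonneg_right h2 hd0
    have h7 : (∑ i, (m i : ℝ) - √n * d) / (d + 1) * d < ∑ i, (m i : ℝ) - √n * d := by
      rw [div_mul_eq_mul_div, div_lt_iff₀ (by linarith)]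
      nlinarith
    linarith
  have h6 : (2 * P.b : ℝ) ≤ P.g := by nlinarith
  refine ⟨P, by exact_mod_cast h6, column_emp hz hz0 h3 h4 ?_ (Or.inl h5)⟩
  rintro i j ⟨w1, w2, w3⟩
  have w5 : ((d : ℝ) - 3 * j) * (P.g - 2 * P.b) ≤ 2 * P.b * i := by
    rw [← cast_row w1]
    exact_mod_cast w2
  have w6 : 2 * P.b * (i : ℝ) ≤ ((d : ℝ) - 3 * j) * (P.g + 2 * (2 * P.b)) := by
    rw [← cast_row w1]
    exact_mod_cast w3
  rw [hg] at w5 w6
  exact ⟨le_of_mul_le_mul_left (by linarith) hb, le_of_mul_le_mul_left (by linarith) hb⟩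

lemma win_square {n d k : ℕ} {m : Fin n → ℕ} {z : Fin n → ℂ} (hz : Function.Injective z)
    (hz0 : ∀ i, z i ≠ 0) (hk : 4 ≤ k) (hn : n = k * k) (hd : 0 < d)
    (h : (k : ℝ) * d ≤ ∑ i, (m i : ℝ)) :
    ∃ P : Par, 2 * P.b ≤ P.g ∧ Emp (Win P d) m z (fun _ => 1) := by
  have hk' : (4 : ℤ) ≤ k := by exact_mod_cast hk
  have hkR : (4 : ℝ) ≤ k := by exact_mod_cast hk
  let P : Par := ⟨d + 2, (d + 2) * (2 * (k - 2)) - 1, by omega, fun hc => by
    have h1 := Int.le_of_dvd one_pos ((dvd_sub_right (dvd_mul_right _ _)).mp hc)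
    omega⟩
  have key : ∀ i j, Win P d i j → 3 * j ≤ d ∧ ((d - 3 * j : ℕ) : ℤ) * (k - 3) ≤ i ∧
      (i : ℤ) ≤ ((d - 3 * j : ℕ) : ℤ) * k ∧
      ((i : ℤ) < ((d - 3 * j : ℕ) : ℤ) * k ∨ d = 3 * j) := by
    rintro i j ⟨w1, w2, w3⟩
    simp only [P] at w2 w3
    have w4 : ((d - 3 * j : ℕ) : ℤ) ≤ d := by omega
    have w5 : 0 < ((d - 3 * j : ℕ) : ℤ) ∨ d = 3 * j := by omega
    have w6 : 0 ≤ ((d - 3 * j : ℕ) : ℤ) := by omega
    generalize ((d - 3 * j : ℕ) : ℤ) = e at w2 w3 w4 w5 w6 ⊢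
    have hb : (0 : ℤ) < 2 * (d + 2) := by omega
    refine ⟨w1, Int.le_of_lt_add_one (lt_of_mul_lt_mul_left ?_ hb.le),
      le_of_mul_le_mul_left ?_ hb, w5.imp (fun w7 => lt_of_mul_lt_mul_left ?_ hb.le) id⟩ <;>
    linarith
  refine ⟨P, by simp only [P]; nlinarith, column_emp (ν := k) hz hz0 (by linarith)
    (by rw [hn]; push_cast; linarith) (fun i j hw => ?_)
    (Or.inr ⟨h, by linarith, hd, fun i j hw => ?_⟩)⟩
  · obtain ⟨w1, w2, w3, -⟩ := key i j hw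
    rw [← cast_row w1]
    exact ⟨by exact_mod_cast w2, by exact_mod_cast w3⟩
  · obtain ⟨w1, -, -, w4 | w4⟩ := key i j hw
    · rw [← cast_row w1]
      exact Or.inl (by exact_mod_cast w4)
    · exact Or.inr (by exact_mod_cast w4)

theorem nagata {n d : ℕ} (m : Fin n → ℕ) (hn : 10 ≤ n) (h0 : 0 < ∑ i, m i)
    (h : √n * d ≤ ∑ i, (m i : ℝ)) :
    ∃ F : MvPolynomial (Fin n × Fin 2) ℂ, F ≠ 0 ∧ ∀ p : Fin n → Fin 2 → ℂ,
      MvPolynomial.eval (fun ij : Fin n × Fin 2 => p ij.1 ij.2) F ≠ 0 →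
      MvPolynomial.restrictTotalDegree (Fin 2) ℂ d ⊓
        ⨅ i : Fin n, ((RingHom.ker (MvPolynomial.eval (p i))) ^ (m i)).restrictScalars ℂ = ⊥ := by
  have hz0 : ∀ i : Fin n, ((i : ℕ) + 1 : ℂ) ≠ 0 := fun i => Nat.cast_add_one_ne_zero _
  have hz : Function.Injective fun i : Fin n => ((i : ℕ) + 1 : ℂ) :=
    fun i j hij => Fin.ext (Nat.cast_injective (R := ℂ) (add_right_cancel hij))
  obtain ⟨P, h1, h2⟩ : ∃ P : Par, 2 * P.b ≤ P.g ∧
      Emp (Win P d) m (fun i : Fin n => ((i : ℕ) + 1 : ℂ)) (fun _ => 1) := by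
    rcases h.lt_or_eq with h1 | h1
    · exact win_strict hz hz0 (by omega) h1
    · have h2 : (0 : ℝ) < ∑ i, (m i : ℝ) := by exact_mod_cast h0
      have hd : 0 < d := Nat.pos_of_ne_zero fun h3 => by
        rw [← h1, h3, Nat.cast_zero, mul_zero] at h2
        exact lt_irrefl _ h2
      have h3 : IsSquare n := by
        by_contra h3
        have h4 := (irrational_sqrt_natCast_iff.mpr h3).mul_natCast hd.ne'
        rw [h1, ← Nat.cast_sum] at h4
        exact Nat.not_irrational _ h4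
      obtain ⟨k, hk⟩ := h3
      refine win_square (k := k) hz hz0 ?_ hk hd ?_
      · by_contra h3
        have := Nat.mul_le_mul (show k ≤ 3 by omega) (show k ≤ 3 by omega)
        omega
      · rw [← h1, hk, Nat.cast_mul, Real.sqrt_mul_self (Nat.cast_nonneg k)]
  obtain ⟨F, hF, H⟩ := tate_generic P h1 hz0 h2
  refine ⟨F, hF, fun p hp => eq_bot_iff.mpr fun f hf => ?_⟩
  have h7 := hf.2
  simp only [Submodule.coe_iInf, Set.mem_iInter, SetLike.mem_coe] at h7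
  exact (map_eq_zero_iff _ (Bivariate.equivMvPolynomial ℂ).symm.injective).mp
    (H p hp _ (sup_symm ((MvPolynomial.mem_restrictTotalDegree _ _ _).mp hf.1))
      fun i => van_symm (h7 i))

end Pool.Agent.Lib.MP_6e81d8_ag.H87
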