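import Pool.Agent.Lib.MP_6e81d8_ag.H87.Local

/-!
Emptiness for the monomial system of windows gives emptiness in the plane.
-/

set_option autoImplicit false

namespace Pool.Agent.Lib.MP_6e81d8_ag.H87

open Polynomial Finset H88
open scoped Polynomial.Bivariate

attribute [local irreducible] io

lemma coeff_toLaurent_nat (q : ℂ[X]) (i : ℕ) : (toLaurent q).coeff (i : ℤ) = q.coeff i := by
  rw [LaurentPolynomial.coeff_toLaurent]
  exact Finsupp.mapDomain_apply Nat.castEmbedding.injective _ i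

lemma exists_toLaurent {p : L} (h : ∀ n, p.coeff n ≠ 0 → 0 ≤ n) : ∃ q : ℂ[X], toLaurent q = p := by
  refine ⟨∑ n ∈ p.coeff.support, monomial n.toNat (p.coeff n), ?_⟩
  conv_rhs => rw [← AddMonoidAlgebra.sum_coeff_single p]
  rw [map_sum, Finsupp.sum]
  refine sum_congr rfl fun n hn => ?_
  rw [toLaurent_C_mul_T, Int.toNat_of_nonneg (h n (Finsupp.mem_support_iff.mp hn)),
    LaurentPolynomial.single_eq_C_mul_T]

lemma slice_natDegree {F : Type} [Field F] (G : F[X][X][Y]) (l : ℕ) :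
    (slice l G).natDegree ≤ G.natDegree := by
  rw [natDegree_le_iff_coeff_eq_zero]
  intro k hk
  ext i
  have := cf_slice l G i k
  unfold cf at this
  rw [this, coeff_eq_zero_of_natDegree_lt hk]
  simp

lemma exists_slice_ne_zero {F : Type} [Field F] {G : F[X][X][Y]} (h : G ≠ 0) :
    ∃ l, slice l G ≠ 0 := by
  obtain ⟨i, k, h1⟩ := exists_cf_ne_zero h
  refine ⟨(cf G i k).natDegree, fun h2 => ?_⟩
  have := cf_slice (cf G i k).natDegree G i k
  rw [h2, cf_zero] at this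
  exact leadingCoeff_ne_zero.mpr h1 this.symm

lemma exists_expand {F : Type} [Field F] (a b δ : F) {d : ℕ} {f : F[X][X][Y]} (hf : f ≠ 0)
    (hd : Sup (fun i k => i + k ≤ d) f) : ∃ (G : ℕ → F[X][X][Y]) (μ : ℕ),
      (∀ j, (G j).natDegree ≤ 2 ∧ Dg (3 * j) d (G j)) ∧
      f = ∑ j ∈ range (d + 1), cub (C a) (C b) (C δ) ^ j * G j ∧
      (∀ j < d + 1, ∀ l, j + l < μ → slice l (G j) = 0) ∧
      ∃ j < d + 1, j ≤ μ ∧ slice (μ - j) (G j) ≠ 0 := by
  classical
  obtain ⟨G, g1, g2⟩ := expand_cub (C a) (C b) (C δ) d (d + 1) 0 f (by omega) hd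
  have hex : ∃ μ, ∃ j < d + 1, j ≤ μ ∧ slice (μ - j) (G j) ≠ 0 := by
    by_contra hc
    apply hf
    rw [g2]
    refine sum_eq_zero fun j hj => ?_
    by_cases h0 : G j = 0
    · rw [h0, mul_zero]
    · obtain ⟨l, hl⟩ := exists_slice_ne_zero h0
      exact absurd ⟨j + l, j, mem_range.mp hj, by omega, by rwa [Nat.add_sub_cancel_left]⟩ hc
  refine ⟨G, Nat.find hex, fun j => ⟨(g1 j).1, (g1 j).2.mono (by omega)⟩, g2, ?_,
    Nat.find_spec hex⟩
  intro j hj l hl
  by_contra h0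
  exact Nat.find_min hex hl ⟨j, hj, by omega, by rwa [Nat.add_sub_cancel_left]⟩

variable (P : Par)

/-- The monomials `z ^ n * y ^ j` allowed in degree `d`: the row `j` is a window. -/
def Win (d n j : ℕ) : Prop :=
  3 * j ≤ d ∧ ((d - 3 * j : ℕ) : ℤ) * (P.g - 2 * P.b) ≤ 2 * P.b * n ∧
    2 * P.b * n ≤ ((d - 3 * j : ℕ) : ℤ) * (P.g + 2 * (2 * P.b))

theorem tate_emp (hg : 2 * P.b ≤ P.g) {a b δ : K}
    (hc : th P 2 ^ 3 + io δ * (th P 0 * th P 1 * th P 2) +
      io a * th P 1 ^ 3 + io b * th P 0 ^ 3 = 0) {ι : Type} {d : ℕ} {m : ι → ℕ} {z : ι → ℂˣ}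
    {y : ι → ℂ} (h0 : ∀ i, ez (z i) (th P 0) ≠ 0)
    (hl : ∀ i, ez (z i) (lam io (th P 0) (th P 1) (th P 2) δ) ≠ 0)
    (h : Emp (Win P d) m (fun i => (z i : ℂ)) y) :
    Emp (A := P1 K) (fun i k => i + k ≤ d) m (fun i => pa (th P 0) (th P 1) (ez (z i)))
      (fun i => pb io (th P 0) (th P 1) (th P 2) (ez (z i)) δ (HahnSeries.C (y i))) := by
  classical
  intro f hd hv
  by_contra hf
  obtain ⟨G, μ, g1, g2, g3, j0, g4, g5, g6⟩ := exists_expand a b δ hf hd
  set r := row io (th P 0) (th P 1) (th P 2) d μ G with hr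
  have r1 : ∀ j, r j ≠ 0 → 3 * j ≤ d ∧ r j = Θ P (d - 3 * j) (slice (μ - j) (G j)) := by
    intro j hj
    rw [hr, row] at hj ⊢
    split_ifs at hj ⊢ with h1
    · refine ⟨?_, rfl⟩
      by_contra h2
      apply hj
      rw [Dg.eq_zero (s := 3 * j) (d := d) ((g1 j).2.slice _) (by omega)]
      simp [Hm]
    · exact absurd rfl hj
  have r2 : r j0 ≠ 0 := by
    rw [hr, row, if_pos g5]
    exact fun h1 => g6 (Θ_inj P hc (s := 3 * j0) (d := d) ((g1 j0).2.slice _) (by omega)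
      ((slice_natDegree _ _).trans (g1 j0).1) h1)
  obtain ⟨j1, hj1, hmin⟩ := exists_min_image ((range (d + 1)).filter fun j => r j ≠ 0)
    (fun j => (r j).order) ⟨j0, mem_filter.mpr ⟨mem_range.mpr g4, r2⟩⟩
  obtain ⟨hj2, hj3⟩ := mem_filter.mp hj1
  set s := (r j1).order with hs
  have r3 : ∀ j < d + 1, ∀ n, ((r j).coeff s).coeff n ≠ 0 → 3 * j ≤ d ∧
      ((d - 3 * j : ℕ) : ℤ) * (P.g - 2 * P.b) ≤ 2 * P.b * n ∧
      2 * P.b * n ≤ ((d - 3 * j : ℕ) : ℤ) * (P.g + 2 * (2 * P.b)) := by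
    intro j hj n hn
    have h1 : r j ≠ 0 := fun h2 => hn (by rw [h2]; rfl)
    obtain ⟨h2, h3⟩ := r1 j h1
    refine ⟨h2, Θ_window P (g := slice (μ - j) (G j)) (s := s) (h3 ▸ hn) fun s' n' hs' => ?_⟩
    rw [← h3, A, HahnSeries.coeff_eq_zero_of_lt_order
      (hs'.trans_le (hmin j (mem_filter.mpr ⟨mem_range.mpr hj, h1⟩)))]
    rfl
  have r4 : ∀ j < d + 1, ∃ q : ℂ[X], toLaurent q = (r j).coeff s := by
    intro j hj
    refine exists_toLaurent fun n hn => ?_
    have h1 := (r3 j hj n hn).2.1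
    have h2 : 0 ≤ ((d - 3 * j : ℕ) : ℤ) * (P.g - 2 * P.b) :=
      mul_nonneg (Nat.cast_nonneg _) (by omega)
    have h3 := P.hb
    by_contra h4
    nlinarith
  choose! q hq using r4
  have r5 : ∀ k, (∑ j ∈ range (d + 1), C (q j) * Y ^ j : ℂ[X][Y]).coeff k =
      if k < d + 1 then q k else 0 := by
    intro k
    simp only [finsetSum_coeff, coeff_C_mul, coeff_X_pow, mul_ite, mul_one, mul_zero, sum_ite_eq,
      mem_range]
  have r6 := h (∑ j ∈ range (d + 1), C (q j) * Y ^ j) ?_ fun i =>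
    local_van P hc (z i) (y i) (h0 i) (hl i) (fun j => (g1 j).2) g3 (g2 ▸ hv i) s q hq
  · have h1 := r5 j1
    rw [r6, coeff_zero, if_pos (mem_range.mp hj2)] at h1
    have h2 := hq j1 (mem_range.mp hj2)
    rw [← h1, map_zero] at h2
    exact hj3 (HahnSeries.coeff_order_eq_zero.mp h2.symm)
  · intro i k hik
    rw [cf, r5] at hik
    split_ifs at hik with h1
    · rw [← coeff_toLaurent_nat, hq k h1] at hik
      exact r3 k h1 i hik
    · exact absurd (coeff_zero _) hik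

lemma ez_ne_zero {f : B} (hf : f ≠ 0) :
    ∃ p : ℂ[X], p ≠ 0 ∧ ∀ z : ℂˣ, p.eval (z : ℂ) ≠ 0 → ez z f ≠ 0 := by
  have h1 : f.coeff f.order ≠ 0 := HahnSeries.coeff_order_eq_zero.not.mpr hf
  obtain ⟨n, p, hp⟩ := (f.coeff f.order).exists_T_pow
  refine ⟨p, ?_, fun z hz h2 => hz ?_⟩
  · rintro rfl
    rw [map_zero] at hp
    exact mul_ne_zero h1 (T_ne_zero n) hp.symm
  · have h3 := congrArg (fun x : K => x.coeff f.order) h2
    simp only [ez, hm_coeff, HahnSeries.coeff_zero] at h3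
    have h4 := congrArg (LaurentPolynomial.eval₂ (RingHom.id ℂ) z) hp
    rw [map_mul, h3, zero_mul, LaurentPolynomial.eval₂_toLaurent] at h4
    exact h4

lemma emp_scale {ι : Type} {D : ℕ → ℕ → Prop} {m : ι → ℕ} {z y : ι → ℂ} (h : Emp D m z y)
    {κ : ℂ} (hκ : κ ≠ 0) : Emp D m (fun i => κ * z i) y := by
  intro f hf hv
  have h1 := h (sub2 (C κ * X) (C (C 1) * Y) f) ?_ fun i => van_scale (by simpa using hv i)
  · refine cf_ext fun i k => ?_
    have := cf_scale κ 1 f i k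
    rw [h1, cf_zero, one_pow, mul_one] at this
    rw [cf_zero]
    exact (mul_eq_zero.mp this.symm).resolve_left (pow_ne_zero _ hκ)
  · intro i k hik
    rw [cf_scale] at hik
    exact hf i k (right_ne_zero_of_mul hik)

lemma emp_of_map {U A' : Type} [CommRing U] [IsDomain U] [CommRing A'] [IsDomain A']
    (φ : U →+* A') {ι : Type} [Fintype ι] {D : ℕ → ℕ → Prop} (hD : Bdd D) {m : ι → ℕ}
    {a b : ι → U} (h : Emp D m (fun j => φ (a j)) (fun j => φ (b j))) : Emp D m a b := by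
  classical
  obtain ⟨s, hs⟩ := hD.exists_finset
  rw [emp_iff_cmat s hs, ← cmat_map] at h
  rw [emp_iff_cmat s hs]
  set M := cmat s m a b
  have h1 : ∀ c, (M.map φ.rangeRestrict).mulVec c = 0 → c = 0 := by
    intro c hc
    have h2 := h (fun x => (c x : A')) (by
      funext r
      have := congrArg φ.range.subtype (congrFun hc r)
      simpa [Matrix.mulVec, dotProduct] using this)
    funext x
    exact Subtype.ext (congrFun h2 x)
  obtain ⟨E, hE, N, hN⟩ := exists_left_inv _ h1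
  choose N' hN' using fun i j => φ.rangeRestrict_surjective (N i j)
  have h2 : (Matrix.of N' * M).det ≠ 0 := by
    intro h0
    have h3 := congrArg φ.rangeRestrict h0
    rw [RingHom.map_det, map_zero, RingHom.mapMatrix_apply, Matrix.map_mul,
      show (Matrix.of N').map φ.rangeRestrict = N from Matrix.ext hN', hN, Matrix.det_smul,
      Matrix.det_one, mul_one] at h3
    exact pow_ne_zero _ hE h3
  intro c hc
  apply Matrix.eq_zero_of_mulVec_eq_zero h2
  rw [← Matrix.mulVec_mulVec, hc, Matrix.mulVec_zero]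

/-- Emptiness of the system of windows at points with nonzero first coordinate gives emptiness of
the plane system at general points. -/
theorem tate_generic (hg : 2 * P.b ≤ P.g) {ι : Type} [Fintype ι] {d : ℕ} {m : ι → ℕ}
    {z y : ι → ℂ} (hz : ∀ i, z i ≠ 0) (h : Emp (Win P d) m z y) :
    ∃ F : MvPolynomial (ι × Fin 2) ℂ, F ≠ 0 ∧ ∀ p : ι → Fin 2 → ℂ,
      MvPolynomial.eval (fun ij : ι × Fin 2 => p ij.1 ij.2) F ≠ 0 →
      Emp (fun i k => i + k ≤ d) m (fun i => p i 0) (fun i => p i 1) := by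
  classical
  obtain ⟨a, b, δ, hc⟩ := exists_cubic P
  obtain ⟨p, hp, hp'⟩ := ez_ne_zero (mul_ne_zero (th_ne_zero P 0) (lam_ne_zero P δ))
  have h1 : (X * ∏ i, p.comp (C (z i) * X) : ℂ[X]) ≠ 0 :=
    mul_ne_zero X_ne_zero (prod_ne_zero_iff.mpr fun i _ => by
      rw [Ne, comp_C_mul_X_eq_zero_iff (mem_nonZeroDivisors_of_ne_zero (hz i))]
      exact hp)
  obtain ⟨κ, hκ⟩ := exists_eval_ne_zero h1
  rw [eval_mul, eval_X, eval_prod] at hκ
  have hκ0 : κ ≠ 0 := left_ne_zero_of_mul hκ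
  let u : ι → ℂˣ := fun i => Units.mk0 (κ * z i) (mul_ne_zero hκ0 (hz i))
  have h2 : ∀ i, ez (u i) (th P 0) * ez (u i) (lam io (th P 0) (th P 1) (th P 2) δ) ≠ 0 := by
    intro i
    rw [← map_mul]
    apply hp'
    have := prod_ne_zero_iff.mp (right_ne_zero_of_mul hκ) i (mem_univ i)
    rwa [eval_comp, eval_mul, eval_C, eval_X, mul_comm] at this
  have h3 := tate_emp P hg hc (z := u) (fun i => left_ne_zero_of_mul (h2 i))
    (fun i => right_ne_zero_of_mul (h2 i)) (emp_scale h hκ0)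
  have hD : Bdd (fun i k => i + k ≤ d) := ⟨d + 1, fun i k h => ⟨by omega, by omega⟩⟩
  generalize (fun i => pa (th P 0) (th P 1) (ez (u i))) = pa' at h3
  generalize (fun i => pb io (th P 0) (th P 1) (th P 2) (ez (u i)) δ (HahnSeries.C (y i))) = pb'
    at h3
  have h4 := emp_of_map (U := MvPolynomial (ι × Fin 2) ℂ) (A' := P1 K)
    (MvPolynomial.eval₂Hom ((C : K →+* P1 K).comp HahnSeries.C)
      fun ij : ι × Fin 2 => ![pa' ij.1, pb' ij.1] ij.2) hD (m := m)
    (a := fun j => MvPolynomial.X (j, 0)) (b := fun j => MvPolynomial.X (j, 1)) (by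
      simpa only [MvPolynomial.eval₂Hom_X', Matrix.cons_val_zero, Matrix.cons_val_one] using h3)
  obtain ⟨F, hF, H⟩ := emp_open hD h4
  refine ⟨F, hF, fun p hp => ?_⟩
  simpa only [MvPolynomial.eval_X] using H ℂ _ hp

end Pool.Agent.Lib.MP_6e81d8_ag.H87
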