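import Pool.Agent.Lib.MP_6e81d8_ag.H88Gen

/-!
Division by a plane cubic which is monic in the second variable.
-/

set_option autoImplicit false

namespace Pool.Agent.Lib.MP_6e81d8_ag.H87

open Polynomial Finset H88
open scoped Polynomial.Bivariate

section Deg

variable {R : Type} [CommRing R]

/-- Total degree at most `d - s`, and zero when `d < s`. -/
def Dg (s d : ℕ) (f : R[X][Y]) : Prop := Sup (fun i k => i + k + s ≤ d) f

lemma dg_zero (s d : ℕ) : Dg s d (0 : R[X][Y]) := fun i k h => absurd (cf_zero i k) h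

lemma Dg.add {s d : ℕ} {f g : R[X][Y]} (hf : Dg s d f) (hg : Dg s d g) : Dg s d (f + g) := by
  intro i k h
  rw [cf_add] at h
  by_cases h1 : cf f i k = 0
  · exact hg i k (by rwa [h1, zero_add] at h)
  · exact hf i k h1

lemma Dg.mul {s d s' d' : ℕ} {f g : R[X][Y]} (hf : Dg s d f) (hg : Dg s' d' g) :
    Dg (s + s') (d + d') (f * g) := by
  intro i k h
  rw [cf_mul] at h
  obtain ⟨x, hx, h1⟩ := exists_ne_zero_of_sum_ne_zero h
  obtain ⟨y, hy, h2⟩ := exists_ne_zero_of_sum_ne_zero h1
  have h3 := hf _ _ (left_ne_zero_of_mul h2)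
  have h4 := hg _ _ (right_ne_zero_of_mul h2)
  rw [HasAntidiagonal.mem_antidiagonal] at hx hy
  omega

lemma Dg.mono {s d s' d' : ℕ} {f : R[X][Y]} (hf : Dg s d f) (h : d + s' ≤ d' + s) :
    Dg s' d' f := by
  intro i k h1
  have := hf i k h1
  omega

lemma Dg.eq_zero {s d : ℕ} {f : R[X][Y]} (hf : Dg s d f) (h : d < s) : f = 0 := by
  by_contra h0
  obtain ⟨i, k, h1⟩ := exists_cf_ne_zero h0
  have := hf i k h1
  omega

lemma dg_C {d : ℕ} {r : R[X]} (h : r.natDegree ≤ d) : Dg 0 d (C r : R[X][Y]) := by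
  intro i k h1
  unfold cf at h1
  rw [coeff_C] at h1
  split_ifs at h1 with h2
  · have := le_natDegree_of_ne_zero h1
    omega
  · exact absurd (coeff_zero _) h1

lemma dg_Y (n : ℕ) : Dg 0 n (Y ^ n : R[X][Y]) := by
  intro i k h1
  unfold cf at h1
  rw [coeff_X_pow] at h1
  split_ifs at h1 with h2
  · rw [coeff_one] at h1
    split_ifs at h1 with h3
    · omega
    · exact absurd rfl h1
  · exact absurd (coeff_zero _) h1

lemma Dg.neg {s d : ℕ} {f : R[X][Y]} (hf : Dg s d f) : Dg s d (-f) := by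
  intro i k h
  apply hf i k
  intro h1
  apply h
  unfold cf at h1 ⊢
  rw [coeff_neg, coeff_neg, h1, neg_zero]

lemma Dg.sub {s d : ℕ} {f g : R[X][Y]} (hf : Dg s d f) (hg : Dg s d g) : Dg s d (f - g) := by
  rw [sub_eq_add_neg]
  exact hf.add hg.neg

/-- The cubic. -/
noncomputable def cub (a b δ : R) : R[X][Y] :=
  Y ^ 3 + (C (C δ * X) * Y + C (C a * X ^ 3 + C b))

lemma cub_aux (a b δ : R) :
    (C (C δ * X) * Y + C (C a * X ^ 3 + C b) : R[X][Y]).degree < (3 : ℕ) :=
  lt_of_le_of_lt degree_linear_le (by norm_num)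

lemma cub_monic (a b δ : R) : (cub a b δ).Monic := monic_X_pow_add (cub_aux a b δ)

lemma cub_natDegree [Nontrivial R] (a b δ : R) : (cub a b δ).natDegree = 3 := by
  apply natDegree_eq_of_degree_eq_some
  rw [cub, degree_add_eq_left_of_degree_lt, degree_X_pow]
  rw [degree_X_pow]
  exact cub_aux a b δ

lemma dg_cub (a b δ : R) : Dg 0 3 (cub a b δ) := by
  refine (dg_Y 3).add (Dg.add ?_ (dg_C ?_))
  · have h1 : (C δ * X : R[X]).natDegree ≤ 1 := by compute_degree
    have := (dg_C h1).mul (dg_Y 1)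
    rw [pow_one] at this
    exact this.mono (by omega)
  · compute_degree

lemma cub_map {S : Type} [CommRing S] (φ : R →+* S) (a b δ : R) :
    (cub a b δ).map (mapRingHom φ) = cub (φ a) (φ b) (φ δ) := by
  simp [cub]

lemma div_cub (a b δ : R) (s d : ℕ) : ∀ (n : ℕ) (f : R[X][Y]), f.natDegree ≤ n → Dg s d f →
    ∃ q r, f = cub a b δ * q + r ∧ r.natDegree ≤ 2 ∧ Dg s d r ∧ Dg (s + 3) d q := by
  intro n
  induction n with
  | zero => exact fun f h1 h2 => ⟨0, f, by simp, by omega, h2, dg_zero _ _⟩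
  | succ n ih =>
    intro f h1 h2
    by_cases h3 : f.natDegree ≤ 2
    · exact ⟨0, f, by simp, h3, h2, dg_zero _ _⟩
    have hf : f ≠ 0 := by
      rintro rfl
      simp at h3
    have : Nontrivial R[X] := Nontrivial.of_polynomial_ne hf
    have : Nontrivial R := by
      obtain ⟨x, y, hxy⟩ := exists_pair_ne R[X]
      exact Nontrivial.of_polynomial_ne hxy
    have hl : f.leadingCoeff ≠ 0 := leadingCoeff_ne_zero.mpr hf
    have h4 : f.leadingCoeff.natDegree + f.natDegree + s ≤ d :=
      h2 _ _ (leadingCoeff_ne_zero.mpr hl)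
    set u : R[X][Y] := C f.leadingCoeff * Y ^ (f.natDegree - 3) with hu
    have h5 : Dg (s + 3) d u := ((dg_C le_rfl).mul (dg_Y _)).mono (by omega)
    have h6 : (f - cub a b δ * u).degree < f.degree := by
      refine degree_sub_lt_left ?_ hf ?_
      · rw [(cub_monic a b δ).degree_mul_comm, (cub_monic a b δ).degree_mul, hu,
          degree_C_mul_X_pow _ hl, degree_eq_natDegree (cub_monic a b δ).ne_zero, cub_natDegree,
          degree_eq_natDegree hf, ← Nat.cast_add]
        congr 1
        omega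
      · rw [leadingCoeff_monic_mul (cub_monic a b δ), hu, leadingCoeff_C_mul_X_pow]
    have h7 : (f - cub a b δ * u).natDegree ≤ n := by
      by_cases h0 : f - cub a b δ * u = 0
      · rw [h0, natDegree_zero]
        omega
      · have := natDegree_lt_natDegree h0 h6
        omega
    obtain ⟨q, r, e1, e2, e3, e4⟩ := ih _ h7 (h2.sub (((dg_cub a b δ).mul h5).mono (by omega)))
    exact ⟨q + u, r, by linear_combination e1, e2, e3, e4.add h5⟩

/-- Expansion in powers of the cubic. -/
lemma expand_cub (a b δ : R) (d : ℕ) : ∀ (N s : ℕ) (f : R[X][Y]), d < s + 3 * N → Dg s d f →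
    ∃ G : ℕ → R[X][Y], (∀ j, (G j).natDegree ≤ 2 ∧ Dg (s + 3 * j) d (G j)) ∧
      f = ∑ j ∈ range N, cub a b δ ^ j * G j := by
  intro N
  induction N with
  | zero =>
    intro s f h1 h2
    exact ⟨fun _ => 0, fun _ => ⟨by simp, dg_zero _ _⟩, by simpa using h2.eq_zero h1⟩
  | succ N ih =>
    intro s f h1 h2
    obtain ⟨q, r, e1, e2, e3, e4⟩ := div_cub a b δ s d _ f le_rfl h2
    obtain ⟨G, g1, g2⟩ := ih (s + 3) q (by omega) e4
    refine ⟨fun j => Nat.casesOn j r G, fun j => ?_, ?_⟩
    · cases j with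
      | zero => exact ⟨e2, e3⟩
      | succ j => exact ⟨(g1 j).1, (g1 j).2.mono (by omega)⟩
    · have h3 : ∑ j ∈ range N, cub a b δ ^ (j + 1) * G j = cub a b δ * q := by
        rw [g2, mul_sum]
        exact sum_congr rfl fun j _ => by ring
      rw [sum_range_succ', pow_zero, one_mul]
      exact e1.trans (congrArg (· + r) h3.symm)

/-- Evaluation at a point of an algebra. -/
noncomputable def ev {S : Type} [CommRing S] (φ : R →+* S) (x y : S) : R[X][Y] →+* S :=
  eval₂RingHom (eval₂RingHom φ x) y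

@[simp] lemma ev_C {S : Type} [CommRing S] (φ : R →+* S) (x y : S) (p : R[X]) :
    ev φ x y (C p) = p.eval₂ φ x := by simp [ev]

@[simp] lemma ev_Y {S : Type} [CommRing S] (φ : R →+* S) (x y : S) : ev φ x y Y = y := by
  simp [ev]

lemma Dg.repr {s d e : ℕ} {f : R[X][Y]} (hf : Dg s d f) (he : d ≤ e + s) :
    f = ∑ k ∈ range (e + 1), ∑ a ∈ range (e + 1 - k), C (C (cf f a k)) * C X ^ a * Y ^ k := by
  refine cf_ext fun i k => ?_
  simp only [cf_sum, ← monomial_monomial_eq, cf_monomial]
  by_cases h : i + k ≤ e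
  · rw [sum_eq_single k, sum_eq_single i, if_pos ⟨rfl, rfl⟩]
    · exact fun a _ ha => if_neg fun h1 => ha h1.1
    · exact fun h1 => absurd (mem_range.mpr (by omega)) h1
    · exact fun b _ hb => sum_eq_zero fun a _ => if_neg fun h1 => hb h1.2
    · exact fun h1 => absurd (mem_range.mpr (by omega)) h1
  · rw [sum_eq_zero]
    · by_contra h1
      have := hf i k h1
      omega
    · intro b hb
      refine sum_eq_zero fun a ha => if_neg ?_
      rintro ⟨rfl, rfl⟩
      have := mem_range.mp ha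
      omega

end Deg

lemma cubic_inj {k F : Type} [Field k] [CommRing F] [IsDomain F] (φ : k[X][Y] →+* F) (a b δ : k)
    (h0 : ∀ r : k[X], φ (C r) = 0 → r = 0) (h2 : ∀ g, Dg 0 2 g → φ g = 0 → g = 0)
    (hc : φ (cub a b δ) = 0) (g : k[X][Y]) (hg : g.natDegree ≤ 2) (hφ : φ g = 0) : g = 0 := by
  by_contra hne
  let _ : Algebra k[X] F := (φ.comp C).toAlgebra
  have hinj : Function.Injective (algebraMap k[X] F) :=
    (injective_iff_map_eq_zero _).mpr h0
  have : Module.IsTorsionFree k[X] F := Module.isTorsionFree_iff_algebraMap_injective.mpr hinj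
  have hev : ∀ p : k[X][Y], aeval (φ Y) p = φ p := by
    intro p
    have : (aeval (φ Y) : k[X][Y] →ₐ[k[X]] F).toRingHom = φ := by
      refine Polynomial.ringHom_ext (fun r => ?_) ?_
      · simp only [AlgHom.toRingHom_eq_coe, RingHom.coe_coe, aeval_C]
        rfl
      · simp
    exact DFunLike.congr_fun this p
  have hint : IsIntegral k[X] (φ Y) := ⟨cub a b δ, cub_monic a b δ, (hev _).trans hc⟩
  have d1 := minpoly.isIntegrallyClosed_dvd hint ((hev _).trans hφ)
  obtain ⟨ρ, hρ⟩ := minpoly.isIntegrallyClosed_dvd hint ((hev _).trans hc)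
  have m1 := minpoly.monic hint
  have m2 : ρ.Monic := m1.of_mul_monic_left (hρ ▸ cub_monic a b δ)
  have n1 := natDegree_le_of_dvd d1 hne
  have n2 := minpoly.natDegree_pos hint
  have n3 : 3 = (minpoly k[X] (φ Y)).natDegree + ρ.natDegree := by
    rw [← m1.natDegree_mul m2, ← hρ, cub_natDegree]
  obtain ⟨r, hr⟩ : ∃ r : k[X], (cub a b δ).eval r = 0 := by
    by_cases h3 : ρ.natDegree = 1
    · exact ⟨-ρ.coeff 0, by rw [hρ, eval_mul, m2.eq_X_add_C h3]; simp⟩
    · exact ⟨-(minpoly k[X] (φ Y)).coeff 0, by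
        rw [hρ, eval_mul, m1.eq_X_add_C (by omega)]; simp⟩
  have hr1 : r ^ 3 = -(C δ * X * r + (C a * X ^ 3 + C b)) := by
    simp only [cub, eval_add, eval_pow, eval_X, eval_mul, eval_C] at hr
    linear_combination hr
  have hr2 : r.natDegree ≤ 1 := by
    by_contra h3
    have h4 := congrArg natDegree hr1
    rw [natDegree_pow, natDegree_neg] at h4
    have h5 : (C δ * X * r + (C a * X ^ 3 + C b)).natDegree ≤ r.natDegree + 1 := by
      refine natDegree_add_le_of_degree_le ?_ ?_
      · refine natDegree_mul_le.trans ?_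
        have : (C δ * X : k[X]).natDegree ≤ 1 := by compute_degree
        omega
      · have : (C a * X ^ 3 + C b : k[X]).natDegree ≤ 3 := by compute_degree
        omega
    omega
  have hfac : cub a b δ = (Y - C r) * (Y ^ 2 + (C r * Y + C (r ^ 2 + C δ * X))) := by
    have h3 := congrArg (C : k[X] → k[X][Y]) hr1
    simp only [cub, map_add, map_mul, map_pow, map_neg] at h3 ⊢
    linear_combination h3
  rw [hfac, map_mul] at hc
  rcases mul_eq_zero.mp hc with h3 | h3
  · refine X_sub_C_ne_zero r (h2 _ (Dg.sub ?_ (dg_C (by omega))) h3)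
    have := dg_Y (R := k) 1
    rw [pow_one] at this
    exact this.mono (by omega)
  · refine (monic_X_pow_add (lt_of_le_of_lt degree_linear_le (by norm_num))).ne_zero
      (h2 _ ((dg_Y 2).add (Dg.add ?_ (dg_C ?_))) h3)
    · have := (dg_C hr2).mul (dg_Y (R := k) 1)
      rwa [pow_one] at this
    · refine natDegree_add_le_of_degree_le ?_ ?_
      · rw [natDegree_pow]
        omega
      · have : (C δ * X : k[X]).natDegree ≤ 1 := by compute_degree
        omega

end Pool.Agent.Lib.MP_6e81d8_ag.H87
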