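import Pool.Agent.Lib.MP_6e81d8_ag.H87.Theta
import Pool.Agent.Lib.MP_6e81d8_ag.H87.Cubic

/-!
Restriction of plane curves to the cubic parametrised by theta functions.
-/

set_option autoImplicit false

namespace Pool.Agent.Lib.MP_6e81d8_ag.H87

open Polynomial Finset H88
open scoped Polynomial.Bivariate

attribute [local irreducible] io

/-- Polynomials in one variable over a field. -/
abbrev P1 (k : Type) [Field k] : Type := k[X]

/-- Polynomials in two variables over a field. -/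
abbrev P2 (k : Type) [Field k] : Type := k[X][Y]

/-- Polynomials in two variables depending on a parameter. -/
abbrev P3 (k : Type) [Field k] : Type := k[X][X][Y]

/-- The form of degree `e` attached to `g`, evaluated at three elements. -/
noncomputable def Hm {F S : Type} [Field F] [CommRing S] (φ : F →+* S) (e : ℕ) (g : F[X][Y])
    (u0 u1 u2 : S) : S :=
  ∑ k ∈ range (e + 1), ∑ a ∈ range (e + 1 - k),
    φ (cf g a k) * u0 ^ (e - k - a) * u1 ^ a * u2 ^ k

lemma rel_Hm {b g : ℤ} {u0 u1 u2 v0 v1 v2 : B} (h0 : Rel b g 1 u0 v0) (h1 : Rel b g 1 u1 v1)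
    (h2 : Rel b g 1 u2 v2) (e : ℕ) (f : P2 K) :
    Rel b g e (Hm io e f u0 u1 u2) (Hm io e f v0 v1 v2) := by
  refine rel_sum _ fun k hk => rel_sum _ fun a ha => ?_
  have := (((rel_io (cf f a k)).mul (h0.pow (e - k - a))).mul (h1.pow a)).mul (h2.pow k)
  have h3 := mem_range.mp hk
  have h4 := mem_range.mp ha
  rwa [show 0 + (e - k - a) + a + k = e by omega] at this

lemma Hm_eval {F S S' : Type} [Field F] [CommRing S] [CommRing S'] (φ : F →+* S) (ρ : S →+* S')
    {u0 u1 u2 : S} {x y : S'}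
    (h1 : ρ u1 = ρ u0 * x) (h2 : ρ u2 = ρ u0 * y) {s d e : ℕ} {g : F[X][Y]} (hg : Dg s d g)
    (he : d ≤ e + s) : ρ (Hm φ e g u0 u1 u2) = ρ u0 ^ e * ev (ρ.comp φ) x y g := by
  conv_rhs => rw [hg.repr he]
  simp only [Hm, map_sum, mul_sum]
  refine sum_congr rfl fun k hk => sum_congr rfl fun a ha => ?_
  have h3 := mem_range.mp hk
  have h4 := mem_range.mp ha
  have h5 : ρ u0 ^ e = ρ u0 ^ (e - k - a) * ρ u0 ^ a * ρ u0 ^ k := by
    rw [← pow_add, ← pow_add]
    congr 1
    omega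
  simp only [map_mul, map_pow, ev_C, ev_Y, eval₂_C, eval₂_X, RingHom.comp_apply, h1, h2]
  rw [h5]
  ring

variable (P : Par)

/-- The theta function of degree `3 * e` attached to a curve of degree at most `e`. -/
noncomputable def Θ (e : ℕ) (g : P2 K) : B := Hm io e g (th P 0) (th P 1) (th P 2)

lemma Θ_window {e : ℕ} {g : P2 K} {s n : ℤ} (h0 : A (Θ P e g) (s, n) ≠ 0)
    (hmin : ∀ s' n', s' < s → A (Θ P e g) (s', n') = 0) :
    e * (P.g - 2 * P.b) ≤ 2 * P.b * n ∧ 2 * P.b * n ≤ e * (P.g + 2 * (2 * P.b)) := by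
  have r0 : Rel (2 * P.b) P.g 1 (th P 0) (th P 1) := rel_th P 0
  have r1 : Rel (2 * P.b) P.g 1 (th P 1) (th P 2) := rel_th P 1
  have r2 : Rel (2 * P.b) P.g 1 (th P 2) (th P 0) := by
    have := rel_th P 2
    rwa [th_congr P (r := 2 + 1) (r' := 0) (by norm_num)] at this
  exact window (rel_Hm r0 r1 r2 e g) (rel_Hm r1 r2 r0 e g) (rel_Hm r2 r0 r1 e g) h0 hmin

lemma Θ_inj {a b δ : K} (hc : th P 2 ^ 3 + io δ * (th P 0 * th P 1 * th P 2) +
    io a * th P 1 ^ 3 + io b * th P 0 ^ 3 = 0) {s d e : ℕ} {g : P2 K} (hg : Dg s d g)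
    (he : d ≤ e + s) (h2 : g.natDegree ≤ 2) (h : Θ P e g = 0) : g = 0 := by
  let F := FractionRing B
  let ρ : B →+* F := algebraMap B F
  have hρ : Function.Injective ρ := IsFractionRing.injective B F
  have h0 : ρ (th P 0) ≠ 0 := fun h => th_ne_zero P 0 (hρ (by rw [h, map_zero]))
  set x := ρ (th P 1) / ρ (th P 0) with hx
  set y := ρ (th P 2) / ρ (th P 0) with hy
  have e1 : ρ (th P 1) = ρ (th P 0) * x := by rw [hx, mul_div_cancel₀ _ h0]
  have e2 : ρ (th P 2) = ρ (th P 0) * y := by rw [hy, mul_div_cancel₀ _ h0]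
  have key : ∀ {s d e : ℕ} {g : P2 K}, Dg s d g → d ≤ e + s →
      (Θ P e g = 0 ↔ ev (ρ.comp io) x y g = 0) := by
    intro s d e g hg he
    rw [← map_eq_zero_iff ρ hρ, Θ, Hm_eval io ρ e1 e2 hg he, mul_eq_zero, or_iff_right (pow_ne_zero _ h0)]
  refine cubic_inj (ev (ρ.comp io) x y) a b δ ?_ ?_ ?_ g h2 ((key hg he).mp h)
  · intro r hr
    have h3 := (key (dg_C le_rfl) le_rfl).mpr hr
    rw [Θ, Hm, sum_range_succ', sum_eq_zero, zero_add] at h3
    · simp only [Nat.sub_zero, pow_zero, mul_one] at h3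
      have h4 := indep_two P _ _ h3 r.natDegree (self_mem_range_succ _)
      rw [cf, coeff_C_zero] at h4
      exact leadingCoeff_eq_zero.mp h4
    · intro k _
      refine sum_eq_zero fun a _ => ?_
      rw [cf, coeff_C_succ, coeff_zero, map_zero, zero_mul, zero_mul, zero_mul]
  · intro g hg hr
    have h3 := (key (e := 2) hg le_rfl).mpr hr
    simp only [Θ, Hm, sum_range_succ, range_zero, sum_empty, zero_add, Nat.reduceAdd,
      Nat.reduceSub, pow_zero, pow_one, mul_one] at h3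
    obtain ⟨c1, c2, c3, c4, c5, c6⟩ := conic P (c00 := cf g 0 0) (c10 := cf g 1 0)
      (c20 := cf g 2 0) (c01 := cf g 0 1) (c11 := cf g 1 1) (c02 := cf g 0 2)
      (by linear_combination h3)
    refine cf_ext fun i k => ?_
    rw [cf_zero]
    by_contra h4
    have h5 := hg i k h4
    have h6 : i ≤ 2 := by omega
    have h7 : k ≤ 2 := by omega
    interval_cases i <;> interval_cases k <;> first | exact h4 ‹_› | omega
  · have h3 := congrArg ρ hc
    simp only [map_add, map_mul, map_pow, map_zero, e1, e2] at h3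
    apply mul_left_cancel₀ (pow_ne_zero 3 h0)
    simp only [cub, map_add, map_mul, map_pow, ev_C, ev_Y, eval₂_C, eval₂_X, RingHom.comp_apply]
    linear_combination h3

end Pool.Agent.Lib.MP_6e81d8_ag.H87
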