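import Pool.Agent.Lib.MP_6e81d8_ag.H87.Hom
import Pool.Agent.Lib.MP_6e81d8_ag.H88Limit

/-!
Degeneration to the normal cone of the cubic, near one point.
-/

set_option autoImplicit false

namespace Pool.Agent.Lib.MP_6e81d8_ag.H87

open Polynomial Finset H88
open scoped Polynomial.Bivariate

attribute [local irreducible] io

lemma ev_Y_sub {R S : Type} [CommRing R] [CommRing S] (φ : R →+* S) (x y : S) (c : R) :
    ev φ x y (Y - C (C c)) = y - φ c := by
  rw [map_sub, ev_Y, ev_C, eval₂_C]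

section abstract

variable {F S : Type} [Field F] [CommRing S] (φ : F →+* S) (t0 t1 t2 : S)

/-- The derivative of the cubic in the last variable, restricted to the cubic. -/
noncomputable def lam (δ : F) : S := 3 * t2 ^ 2 + φ δ * (t0 * t1)

/-- First coordinate of the moving point. -/
noncomputable def pa (e : S →+* F) : F[X] := C (e t1 / e t0)

/-- Second coordinate of the moving point. -/
noncomputable def pb (e : S →+* F) (δ y : F) : F[X] :=
  C (e t2 / e t0) + X * C (y * (e t0 * e (lam φ t0 t1 t2 δ))⁻¹)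

/-- The part of the leading term which lies in the row `j`. -/
noncomputable def row (d μ : ℕ) (G : ℕ → F[X][X][Y]) (j : ℕ) : S :=
  if j ≤ μ then Hm φ (d - 3 * j) (slice (μ - j) (G j)) t0 t1 t2 else 0

lemma exists_div_slice {G : F[X][X][Y]} {l : ℕ} (h : ∀ l' < l, slice l' G = 0) :
    ∃ G' : F[X][X][Y], G = C (C (X ^ l)) * G' ∧
      G'.map (mapRingHom (evalRingHom 0)) = slice l G := by
  have hdvd : (C (C (X ^ l)) : F[X][X][Y]) ∣ G := by
    rw [C_dvd_iff_dvd_coeff]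
    intro k
    rw [C_dvd_iff_dvd_coeff]
    intro i
    rw [X_pow_dvd_iff]
    intro u hu
    have := cf_slice u G i k
    rw [h u hu, cf_zero] at this
    exact this.symm
  obtain ⟨G', hG'⟩ := hdvd
  refine ⟨G', hG', cf_ext fun i k => ?_⟩
  rw [cf_slice, cf_map, hG', cf_CC_mul, coe_evalRingHom, ← coeff_zero_eq_eval_zero]
  have := coeff_X_pow_mul (cf G' i k) l 0
  rw [zero_add] at this
  exact this.symm

theorem local_abstract {a b δ : F} (hc : t2 ^ 3 + φ δ * (t0 * t1 * t2) +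
    φ a * t1 ^ 3 + φ b * t0 ^ 3 = 0) {H : Type} [CommRing H] (ρ : S →+* H)
    (κ : F →+* H) (e : S →+* F) (I : Ideal H) {m : ℕ} (hI : I ^ m = ⊥) (hκ : ρ.comp φ = κ)
    (hρ : ∀ f, ρ f - κ (e f) ∈ I) (yy : H) (y : F) (hy : yy - κ y ∈ I)
    (h0 : e t0 ≠ 0) (hl : e (lam φ t0 t1 t2 δ) ≠ 0) {d N μ : ℕ} {G : ℕ → F[X][X][Y]}
    (hG : ∀ j, Dg (3 * j) d (G j)) (hμ : ∀ j < N, ∀ l, j + l < μ → slice l (G j) = 0)
    (hv : Van m (pa t0 t1 e) (pb φ t0 t1 t2 e δ y) (∑ j ∈ range N, cub (C a) (C b) (C δ) ^ j * G j)) :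
    ∑ j ∈ range N, yy ^ j * ρ (row φ t0 t1 t2 d μ G j) = 0 := by
  have hu : ∀ f, e f ≠ 0 → IsUnit (ρ f) := by
    intro f hf
    have h1 : IsNilpotent (ρ f - κ (e f)) := ⟨m, by
      have := Ideal.pow_mem_pow (hρ f) m
      rwa [hI, Ideal.mem_bot] at this⟩
    have := h1.isUnit_add_right_of_commute ((IsUnit.mk0 _ hf).map κ) (Commute.all _ _)
    rwa [sub_add_cancel] at this
  obtain ⟨i0, hi0⟩ := (hu _ h0).exists_right_inv
  obtain ⟨i1, hi1⟩ := (hu _ hl).exists_right_inv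
  have hκ' : ∀ α, ρ (φ α) = κ α := fun α => DFunLike.congr_fun hκ α
  set x0 := ρ t0 with hx0
  set xx := ρ t1 * i0 with hxx
  set y1 := ρ t2 * i0 with hy1
  have e1 : ρ t1 = x0 * xx := by rw [hxx]; linear_combination -ρ t1 * hi0
  have e2 : ρ t2 = x0 * y1 := by rw [hy1]; linear_combination -ρ t2 * hi0
  have j0 : i0 - κ (e t0)⁻¹ ∈ I := by
    have h1 : κ (e t0) * κ (e t0)⁻¹ = 1 := by
      rw [← map_mul, mul_inv_cancel₀ h0, map_one]
    have := I.mul_mem_left (-(i0 * κ (e t0)⁻¹)) (hρ t0)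
    convert this using 1
    linear_combination κ (e t0)⁻¹ * hi0 - i0 * h1
  have j1 : i1 - κ (e (lam φ t0 t1 t2 δ))⁻¹ ∈ I := by
    have h1 : κ (e (lam φ t0 t1 t2 δ)) * κ (e (lam φ t0 t1 t2 δ))⁻¹ = 1 := by
      rw [← map_mul, mul_inv_cancel₀ hl, map_one]
    have := I.mul_mem_left (-(i1 * κ (e (lam φ t0 t1 t2 δ))⁻¹)) (hρ (lam φ t0 t1 t2 δ))
    convert this using 1
    linear_combination κ (e (lam φ t0 t1 t2 δ))⁻¹ * hi1 - i1 * h1
  have cg : ∀ {u v u' v' : H}, u - u' ∈ I → v - v' ∈ I → u * v - u' * v' ∈ I := by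
    intro u v u' v' h1 h2
    have := I.add_mem (I.mul_mem_right v h1) (I.mul_mem_left u' h2)
    convert this using 1
    ring
  set η : H[X] := X * C (yy * (i0 * i1)) with hη
  set ψ : F[X][X][Y] →+* H[X] := ev (mapRingHom κ) (C xx) (C y1 + η) with hψ
  have z1 : ψ (∑ j ∈ range N, cub (C a) (C b) (C δ) ^ j * G j) = 0 := by
    have := van_transfer ψ (I.map C) ?_ ?_ hv
    · rwa [← Ideal.map_pow, hI, Ideal.map_bot, Ideal.mem_bot] at this
    · have h1 : ψ (C (X - C (pa t0 t1 e))) = C (xx - κ (e t1) * κ (e t0)⁻¹) := by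
        simp [hψ, pa, div_eq_mul_inv]
      rw [h1]
      exact Ideal.mem_map_of_mem _ (cg (hρ _) j0)
    · have h1 : ψ (Y - C (C (pb φ t0 t1 t2 e δ y))) = C (y1 - κ (e t2) * κ (e t0)⁻¹) +
          X * C (yy * (i0 * i1) - κ y * (κ (e t0)⁻¹ * κ (e (lam φ t0 t1 t2 δ))⁻¹)) := by
        rw [hψ, ev_Y_sub, hη, pb]
        simp only [map_sub, coe_mapRingHom, Polynomial.map_add,
          Polynomial.map_mul, map_C, map_X, div_eq_mul_inv, mul_inv, map_mul]
        ring
      rw [h1]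
      exact Ideal.add_mem _ (Ideal.mem_map_of_mem _ (cg (hρ _) j0))
        (Ideal.mul_mem_left _ _ (Ideal.mem_map_of_mem _ (cg hy (cg j0 j1))))
  have z2 : ∃ k : H[X], C x0 ^ 3 * ψ (cub (C a) (C b) (C δ)) = X * (C yy + X * k) := by
    have h1 := congrArg ρ hc
    simp only [map_add, map_mul, map_pow, map_zero, e1, e2, hκ', ← hx0] at h1
    have h2 : ρ (lam φ t0 t1 t2 δ) = x0 ^ 2 * (3 * y1 ^ 2 + κ δ * xx) := by
      simp only [lam, map_add, map_mul, map_pow, map_ofNat, e1, e2, hκ', ← hx0]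
      ring
    rw [h2] at hi1
    have h3 := congrArg (C : H → H[X]) h1
    have h4 := congrArg (C : H → H[X]) hi0
    have h5 := congrArg (C : H → H[X]) hi1
    simp only [map_add, map_mul, map_pow, map_zero, map_one, map_ofNat] at h3 h4 h5
    refine ⟨C x0 ^ 3 * C (yy * (i0 * i1)) ^ 2 * (3 * C y1 + η), ?_⟩
    simp only [hψ, hη, cub, map_add, map_mul, map_pow, ev_Y, ev_C, eval₂_C, eval₂_X,
      coe_mapRingHom, map_C]
    linear_combination h3 + X * C yy * h5 +
      X * C yy * C x0 ^ 2 * (3 * C y1 ^ 2 + C (κ δ) * C xx) * C i1 * h4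
  obtain ⟨k, hk⟩ := z2
  have z3 : ∀ g : F[X][X][Y], (ψ g).eval 0 =
      ev κ xx y1 (g.map (mapRingHom (evalRingHom 0))) := by
    intro g
    have : (evalRingHom 0).comp ψ =
        (ev κ xx y1).comp (mapRingHom (mapRingHom (evalRingHom 0))) := by
      refine Polynomial.ringHom_ext' (Polynomial.ringHom_ext' (Polynomial.ringHom_ext' ?_ ?_) ?_) ?_
      · ext u
        simp [hψ]
      · simp [hψ]
      · simp [hψ]
      · simp [hψ, hη]
    exact DFunLike.congr_fun this g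
  have z4 : ∀ j ∈ range N, ∃ W : H[X], C x0 ^ d * ψ (cub (C a) (C b) (C δ) ^ j * G j) =
      X ^ μ * W ∧ W.eval 0 = yy ^ j * ρ (row φ t0 t1 t2 d μ G j) := by
    intro j hj
    by_cases h3 : d < 3 * j
    · refine ⟨0, by rw [(hG j).eq_zero h3]; simp, ?_⟩
      have h4 : ∀ l, Hm φ (d - 3 * j) (slice l (G j)) t0 t1 t2 = 0 := fun l => by
        rw [Dg.eq_zero (s := 3 * j) (d := d) ((hG j).slice l) h3]
        simp [Hm]
      unfold row
      split_ifs
      · rw [h4]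
        simp
      · simp
    have h4 : C x0 ^ d * ψ (cub (C a) (C b) (C δ) ^ j * G j) =
        X ^ j * (C yy + X * k) ^ j * (C x0 ^ (d - 3 * j) * ψ (G j)) := by
      rw [← mul_pow, ← hk, map_mul, map_pow, mul_pow, ← pow_mul]
      conv_lhs => rw [show d = 3 * j + (d - 3 * j) by omega, pow_add]
      ring
    by_cases h5 : j ≤ μ
    · obtain ⟨G', g1, g2⟩ := exists_div_slice (G := G j) (l := μ - j)
        fun l' hl' => hμ j (mem_range.mp hj) l' (by omega)
      refine ⟨(C yy + X * k) ^ j * (C x0 ^ (d - 3 * j) * ψ G'), ?_, ?_⟩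
      · have h6 : ψ (C (C (X ^ (μ - j)))) = X ^ (μ - j) := by simp [hψ]
        rw [h4, g1, map_mul, h6]
        conv_rhs => rw [show μ = j + (μ - j) by omega, pow_add]
        ring
      · rw [row, if_pos h5, Hm_eval φ ρ e1 e2 (s := 3 * j) (d := d) ((hG j).slice _) (by omega),
          hκ, ← g2, ← z3]
        simp [hx0]
    · refine ⟨X ^ (j - μ) * ((C yy + X * k) ^ j * (C x0 ^ (d - 3 * j) * ψ (G j))), ?_, ?_⟩
      · rw [h4]
        conv_lhs => rw [show j = μ + (j - μ) by omega, pow_add]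
        rw [show μ + (j - μ) = j by omega]
        ring
      · rw [row, if_neg h5, eval_mul, eval_pow, eval_X, zero_pow (by omega)]
        simp
  choose! W hW1 hW2 using z4
  have z5 : X ^ μ * ∑ j ∈ range N, W j = 0 := by
    rw [mul_sum, ← sum_congr rfl hW1, ← mul_sum, ← map_sum, z1, mul_zero]
  rw [(monic_X_pow μ).mul_right_eq_zero_iff] at z5
  rw [← sum_congr rfl hW2, ← eval_finsetSum, z5, eval_zero]

end abstract

/-- Series all of whose coefficients lie in the ideal `J`. -/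
noncomputable def cI {R : Type} [CommRing R] (J : Ideal R) : Ideal (HahnSeries ℤ R) :=
  RingHom.ker (hm (Ideal.Quotient.mk J))

lemma mem_cI {R : Type} [CommRing R] {J : Ideal R} {h : HahnSeries ℤ R} :
    h ∈ cI J ↔ ∀ s, h.coeff s ∈ J := by
  rw [cI, RingHom.mem_ker, HahnSeries.ext_iff, funext_iff]
  exact forall_congr' fun s => Ideal.Quotient.eq_zero_iff_mem

lemma cI_pow {R : Type} [CommRing R] (J : Ideal R) (k : ℕ) : cI J ^ k ≤ cI (J ^ k) := by
  induction k with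
  | zero => exact fun h _ => mem_cI.mpr fun s => by simp
  | succ k ih =>
    rw [ipow_succ, ipow_succ]
    refine Ideal.mul_le.mpr fun u hu v hv => mem_cI.mpr fun s => ?_
    rw [HahnSeries.coeff_mul]
    exact Ideal.sum_mem _ fun ij _ => Ideal.mul_mem_mul (mem_cI.mp (ih hu) _) (mem_cI.mp hv _)

variable (P : Par)

lemma lam_ne_zero (δ : K) : lam io (th P 0) (th P 1) (th P 2) δ ≠ 0 := by
  intro h
  have h1 := conic P (c00 := 0) (c10 := δ) (c20 := 0) (c01 := 0) (c11 := 0) (c02 := 3) (by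
    rw [map_zero, map_ofNat]
    unfold lam at h
    linear_combination h)
  have h2 : (HahnSeries.C (3 : ℂ) : K) = HahnSeries.C 0 := by
    rw [map_zero, map_ofNat]
    exact h1.2.2.2.2.2
  exact three_ne_zero (HahnSeries.C_injective h2)

/-- Evaluation at a nonzero complex number. -/
noncomputable def ez (z : ℂˣ) : B →+* K := hm (LaurentPolynomial.eval₂ (RingHom.id ℂ) z)

theorem local_van' {a b δ : K} (hc : th P 2 ^ 3 + io δ * (th P 0 * th P 1 * th P 2) +
    io a * th P 1 ^ 3 + io b * th P 0 ^ 3 = 0) (z : ℂˣ) (y : ℂ) {m : ℕ}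
    {R : Type} [CommRing R] (π : ℂ[X][Y] →+* R) (hπ : ∀ f, π f = 0 ↔ Van m (z : ℂ) y f)
    (h0 : ez z (th P 0) ≠ 0) (hl : ez z (lam io (th P 0) (th P 1) (th P 2) δ) ≠ 0) {d N μ : ℕ} {G : ℕ → P3 K}
    (hG : ∀ j, Dg (3 * j) d (G j)) (hμ : ∀ j < N, ∀ l, j + l < μ → slice l (G j) = 0)
    (hv : Van m (pa (th P 0) (th P 1) (ez z)) (pb io (th P 0) (th P 1) (th P 2) (ez z) δ (HahnSeries.C y))
      (∑ j ∈ range N, cub (C a) (C b) (C δ) ^ j * G j))
    (s : ℤ) (q : ℕ → ℂ[X]) (hq : ∀ j < N, toLaurent (q j) = (row io (th P 0) (th P 1) (th P 2) d μ G j).coeff s) :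
    Van m (z : ℂ) y (∑ j ∈ range N, C (q j) * Y ^ j) := by
  let κ0 : ℂ →+* R := π.comp (C.comp C)
  let J : Ideal R := (mx (z : ℂ) y).map π
  have hJ : J ^ m = ⊥ := by
    rw [show J = (mx (z : ℂ) y).map π from rfl, ← Ideal.map_pow, Ideal.map_eq_bot_iff_le_ker]
    exact fun f hf => (hπ f).mpr hf
  have h1 : π (C X) - κ0 z ∈ J := by
    have := Ideal.mem_map_of_mem π (X_mem_mx (z : ℂ) y)
    rwa [C_sub, map_sub] at this
  have h2 : π Y - κ0 y ∈ J := by
    have := Ideal.mem_map_of_mem π (Y_mem_mx (z : ℂ) y)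
    rwa [map_sub] at this
  have h3 : IsUnit (π (C X)) := by
    have h4 : IsNilpotent (π (C X) - κ0 z) := ⟨m, by
      have := Ideal.pow_mem_pow h1 m
      rwa [hJ, Ideal.mem_bot] at this⟩
    have := h4.isUnit_add_right_of_commute (z.isUnit.map κ0) (Commute.all _ _)
    rwa [sub_add_cancel] at this
  obtain ⟨u, hu⟩ := h3
  let ρ0 : L →+* R := LaurentPolynomial.eval₂ κ0 u
  have h4 : ∀ p : L, ρ0 p - κ0 (LaurentPolynomial.eval₂ (RingHom.id ℂ) z p) ∈ J := by
    intro p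
    obtain ⟨n, p', hp⟩ := p.exists_T_pow
    have e1 := congrArg ρ0 hp
    have e2 := congrArg (LaurentPolynomial.eval₂ (RingHom.id ℂ) z) hp
    rw [map_mul, LaurentPolynomial.eval₂_toLaurent, LaurentPolynomial.eval₂_T_n] at e1 e2
    rw [← Ideal.Quotient.eq] at h1 ⊢
    have e3 : IsUnit (Ideal.Quotient.mk J ((u : R) ^ n)) := (u.isUnit.pow n).map _
    refine e3.mul_right_cancel ?_
    rw [← map_mul, ← e1, map_pow, hu, h1, ← map_pow, ← map_mul, ← map_pow, ← map_mul, ← e2,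
      hom_eval₂, h1, ← RingHom.comp_apply, ← RingHom.comp_apply (Ideal.Quotient.mk J) κ0,
      hom_eval₂, RingHom.comp_id]
  have key := local_abstract io (th P 0) (th P 1) (th P 2) hc (hm ρ0) (hm κ0) (ez z) (cI J) (m := m) ?_ ?_ ?_
    (HahnSeries.C (π Y)) (HahnSeries.C y) ?_ h0 hl hG hμ hv
  · have h5 := congrArg (fun x : HahnSeries ℤ R => x.coeff s) key
    simp only [HahnSeries.coeff_sum, HahnSeries.coeff_zero] at h5
    rw [← hπ, map_sum, ← h5]
    refine sum_congr rfl fun j hj => ?_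
    rw [← map_pow, HahnSeries.C_mul_eq_smul, HahnSeries.coeff_smul, hm_coeff,
      ← hq j (mem_range.mp hj), LaurentPolynomial.eval₂_toLaurent, hu, smul_eq_mul, map_mul,
      mul_comm, map_pow]
    congr 1
    have : π.comp C = eval₂RingHom κ0 (π (C X)) := by
      refine Polynomial.ringHom_ext (fun c => ?_) ?_
      · rw [coe_eval₂RingHom, eval₂_C]
        rfl
      · rw [coe_eval₂RingHom, eval₂_X]
        rfl
    exact DFunLike.congr_fun this (q j)
  · rw [eq_bot_iff]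
    refine (cI_pow J m).trans fun h hh => ?_
    rw [hJ, mem_cI] at hh
    exact HahnSeries.ext (funext hh)
  · ext α s
    unfold io
    rw [RingHom.comp_apply, hm_coeff, hm_coeff, hm_coeff, LaurentPolynomial.eval₂_C]
  · intro f
    refine mem_cI.mpr fun s => ?_
    rw [HahnSeries.coeff_sub]
    exact h4 _
  · refine mem_cI.mpr fun s => ?_
    rw [HahnSeries.coeff_sub, hm_coeff, HahnSeries.C_apply, HahnSeries.C_apply]
    by_cases hs : s = 0
    · rw [hs, HahnSeries.coeff_single_same, HahnSeries.coeff_single_same]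
      exact h2
    · rw [HahnSeries.coeff_single_of_ne hs, HahnSeries.coeff_single_of_ne hs, map_zero, sub_zero]
      exact J.zero_mem

theorem local_van {a b δ : K} (hc : th P 2 ^ 3 + io δ * (th P 0 * th P 1 * th P 2) +
    io a * th P 1 ^ 3 + io b * th P 0 ^ 3 = 0) (z : ℂˣ) (y : ℂ) {m : ℕ}
    (h0 : ez z (th P 0) ≠ 0) (hl : ez z (lam io (th P 0) (th P 1) (th P 2) δ) ≠ 0) {d N μ : ℕ}
    {G : ℕ → P3 K}
    (hG : ∀ j, Dg (3 * j) d (G j)) (hμ : ∀ j < N, ∀ l, j + l < μ → slice l (G j) = 0)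
    (hv : Van m (pa (th P 0) (th P 1) (ez z))
      (pb io (th P 0) (th P 1) (th P 2) (ez z) δ (HahnSeries.C y))
      (∑ j ∈ range N, cub (C a) (C b) (C δ) ^ j * G j))
    (s : ℤ) (q : ℕ → ℂ[X])
    (hq : ∀ j < N, toLaurent (q j) = (row io (th P 0) (th P 1) (th P 2) d μ G j).coeff s) :
    Van m (z : ℂ) y (∑ j ∈ range N, C (q j) * Y ^ j) :=
  local_van' P hc z y (R := ℂ[X][Y] ⧸ mx (z : ℂ) y ^ m) (Ideal.Quotient.mk _)
    (fun _ => Ideal.Quotient.eq_zero_iff_mem) h0 hl hG hμ hv s q hq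

end Pool.Agent.Lib.MP_6e81d8_ag.H87
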