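import Mathlib

/-!
Laurent series in a parameter whose coefficients are Laurent polynomials, and the shear relation
satisfied by theta functions.
-/

set_option autoImplicit false

namespace Pool.Agent.Lib.MP_6e81d8_ag.H87

open Finset

/-- Laurent polynomials in `z`. -/
abbrev L : Type := LaurentPolynomial ℂ

/-- Laurent series in the parameter with coefficients in `L`. -/
abbrev B : Type := HahnSeries ℤ L

/-- Laurent series in the parameter with complex coefficients. -/
abbrev K : Type := HahnSeries ℤ ℂ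

/-- A ring homomorphism applied to every coefficient. -/
noncomputable def hm {R S : Type} [CommRing R] [CommRing S] (f : R →+* S) :
    HahnSeries ℤ R →+* HahnSeries ℤ S where
  toFun x := x.map f
  map_one' := HahnSeries.map_one f.toMonoidWithZeroHom
  map_mul' _ _ := HahnSeries.map_mul f.toNonUnitalRingHom
  map_zero' := by ext; simp
  map_add' _ _ := HahnSeries.map_add f.toAddMonoidHom

@[simp] lemma hm_coeff {R S : Type} [CommRing R] [CommRing S] (f : R →+* S) (x : HahnSeries ℤ R)
    (s : ℤ) : (hm f x).coeff s = f (x.coeff s) := rfl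

lemma hm_hm {R S T : Type} [CommRing R] [CommRing S] [CommRing T] (f : R →+* S) (g : S →+* T)
    (x : HahnSeries ℤ R) : hm g (hm f x) = hm (g.comp f) x := by
  ext; simp

/-- The constants. -/
noncomputable def io : K →+* B := hm LaurentPolynomial.C

/-- The coefficient of `τ ^ s * z ^ n`. -/
noncomputable def A (f : B) (p : ℤ × ℤ) : ℂ := (f.coeff p.1).coeff p.2

lemma A_ext {f g : B} (h : ∀ p, A f p = A g p) : f = g := by
  ext s n
  exact h (s, n)

@[simp] lemma A_zero (p : ℤ × ℤ) : A 0 p = 0 := by simp [A]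

lemma A_add (f g : B) (p : ℤ × ℤ) : A (f + g) p = A f p + A g p := by simp [A]

lemma A_sum {ι : Type*} (s : Finset ι) (f : ι → B) (p : ℤ × ℤ) :
    A (∑ i ∈ s, f i) p = ∑ i ∈ s, A (f i) p := by
  classical
  induction s using Finset.induction_on with
  | empty => simp
  | insert a s ha ih => rw [sum_insert ha, sum_insert ha, A_add, ih]

lemma A_io (α : K) (p : ℤ × ℤ) : A (io α) p = if p.2 = 0 then α.coeff p.1 else 0 := by
  simp [A, io]

lemma io_injective : Function.Injective io := by
  intro a b h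
  ext s
  have := congrArg (fun f => A f (s, 0)) h
  simpa [A_io] using this

lemma A_mul (f g : B) (p : ℤ × ℤ) : A (f * g) p = ∑ᶠ q, A f q * A g (p - q) := by
  classical
  set D := antidiagonal f.isPWO_support g.isPWO_support p.1 with hD
  set U : Finset ℤ := D.biUnion fun ij => (f.coeff ij.1).coeff.support with hU
  have hsub : (Function.support fun q => A f q * A g (p - q)) ⊆ ↑(D.image Prod.fst ×ˢ U) := by
    intro q hq
    have h1 : A f q ≠ 0 := left_ne_zero_of_mul hq
    have h2 : A g (p - q) ≠ 0 := right_ne_zero_of_mul hq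
    have h3 : (q.1, p.1 - q.1) ∈ D := by
      rw [hD, Finset.mem_antidiagonal]
      refine ⟨fun h => h1 ?_, fun h => h2 ?_, by ring⟩
      · have h' : f.coeff q.1 = 0 := h
        simp [A, h']
      · have h' : g.coeff (p.1 - q.1) = 0 := h
        simp [A, h']
    simp only [coe_product, coe_image, Set.mem_prod, Set.mem_image, mem_coe]
    exact ⟨⟨_, h3, rfl⟩, mem_biUnion.mpr ⟨_, h3, Finsupp.mem_support_iff.mpr h1⟩⟩
  rw [finsum_eq_sum_of_support_subset _ hsub, sum_product, sum_image]
  · unfold A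
    rw [HahnSeries.coeff_mul, AddMonoidAlgebra.coeff_sum, Finsupp.finsetSum_apply]
    refine sum_congr rfl fun ij hij => ?_
    have h4 : ij.2 = p.1 - ij.1 := by
      have := (mem_antidiagonal.mp hij).2.2
      omega
    rw [AddMonoidAlgebra.coeff_mul_apply_left, Finsupp.sum_of_support_subset _
      (s := U) (fun n hn => mem_biUnion.mpr ⟨ij, hij, hn⟩) _ (by simp)]
    refine sum_congr rfl fun n _ => ?_
    rw [h4, Prod.fst_sub, Prod.snd_sub, neg_add_eq_sub]
  · intro x hx y hy hxy
    have h1 := (mem_antidiagonal.mp hx).2.2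
    have h2 := (mem_antidiagonal.mp hy).2.2
    exact Prod.ext hxy (by omega)

section rel

variable (b g : ℤ)

/-- The shear of weight `e`. -/
def Sh (e : ℕ) : ℤ × ℤ ≃ ℤ × ℤ where
  toFun p := (p.1 + b * p.2 - e * g, p.2 + e)
  invFun p := (p.1 - b * (p.2 - e) + e * g, p.2 - e)
  left_inv p := Prod.ext (by simp only; ring) (by simp only; ring)
  right_inv p := Prod.ext (by simp only; ring) (by simp only; ring)

/-- `f'` is the shear of `f`. -/
def Rel (e : ℕ) (f f' : B) : Prop := ∀ p, A f' (Sh b g e p) = A f p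

variable {b g}

lemma Rel.mul {e e' : ℕ} {f f' h h' : B} (h1 : Rel b g e f f') (h2 : Rel b g e' h h') :
    Rel b g (e + e') (f * h) (f' * h') := by
  intro p
  rw [A_mul, A_mul, ← finsum_comp_equiv (Sh b g e)]
  refine finsum_congr fun q => ?_
  rw [h1 q, ← h2 (p - q)]
  congr 2
  ext
  · simp only [Sh, Equiv.coe_fn_mk, Prod.fst_sub, Prod.snd_sub]
    push_cast
    ring
  · simp only [Sh, Equiv.coe_fn_mk, Prod.snd_sub]
    push_cast
    ring

lemma Rel.add {e : ℕ} {f f' h h' : B} (h1 : Rel b g e f f') (h2 : Rel b g e h h') :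
    Rel b g e (f + h) (f' + h') := fun p => by rw [A_add, A_add, h1 p, h2 p]

lemma rel_sum {ι : Type*} (s : Finset ι) {e : ℕ} {f f' : ι → B}
    (h : ∀ i ∈ s, Rel b g e (f i) (f' i)) : Rel b g e (∑ i ∈ s, f i) (∑ i ∈ s, f' i) :=
  fun p => by rw [A_sum, A_sum]; exact sum_congr rfl fun i hi => h i hi p

lemma rel_io (α : K) : Rel b g 0 (io α) (io α) := by
  intro p
  rw [A_io, A_io]
  by_cases h : p.2 = 0 <;> simp [Sh, h]

lemma Rel.pow {f f' : B} (h : Rel b g 1 f f') (e : ℕ) : Rel b g e (f ^ e) (f' ^ e) := by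
  induction e with
  | zero => simpa using rel_io (b := b) (g := g) 1
  | succ e ih => rw [pow_succ, pow_succ]; exact ih.mul h

lemma Rel.eq_zero {e : ℕ} {f f' : B} (h : Rel b g e f f') (h0 : f = 0) : f' = 0 := by
  refine A_ext fun p => ?_
  rw [← (Sh b g e).apply_symm_apply p, h, h0, A_zero, A_zero]

lemma theta_shift {e : ℕ} {f f1 f2 : B} (h1 : Rel b g e f f1) (h2 : Rel b g e f1 f2)
    (h3 : Rel b g e f2 f) (p : ℤ × ℤ) :
    A f (p.1 + 3 * (b * p.2 + b * e - e * g), p.2 + 3 * e) = A f p := by
  rw [← h1 p, ← h2, ← h3]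
  congr 1
  ext
  · simp only [Sh, Equiv.coe_fn_mk]
    ring
  · simp only [Sh, Equiv.coe_fn_mk]
    ring

/-- The window in which the terms of lowest order of a theta function lie. -/
lemma window {e : ℕ} {f f1 f2 : B} (h1 : Rel b g e f f1) (h2 : Rel b g e f1 f2)
    (h3 : Rel b g e f2 f) {s n : ℤ} (h0 : A f (s, n) ≠ 0)
    (hmin : ∀ s' n', s' < s → A f (s', n') = 0) :
    e * (g - b) ≤ b * n ∧ b * n ≤ e * (g + 2 * b) := by
  have key := theta_shift h1 h2 h3
  constructor
  · by_contra hc
    have := key (s, n)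
    rw [hmin _ _ (by simp only; nlinarith)] at this
    exact h0 this.symm
  · by_contra hc
    have := key (s - 3 * (b * (n - 3 * e) + b * e - e * g), n - 3 * e)
    rw [hmin (s - 3 * (b * (n - 3 * e) + b * e - e * g)) _ (by nlinarith)] at this
    apply h0
    rw [← this]
    congr 1
    ext <;> simp

end rel

/-- All exponents of `z` are congruent to `r` modulo three. -/
def Gr (r : ℤ) (f : B) : Prop := ∀ p, A f p ≠ 0 → (3 : ℤ) ∣ p.2 - r

lemma Gr.mul {r r' : ℤ} {f h : B} (h1 : Gr r f) (h2 : Gr r' h) : Gr (r + r') (f * h) := by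
  intro p hp
  by_contra hc
  apply hp
  rw [A_mul]
  refine finsum_eq_zero_of_forall_eq_zero fun q => ?_
  by_contra h3
  have h4 := h1 q (left_ne_zero_of_mul h3)
  have h5 := h2 _ (right_ne_zero_of_mul h3)
  rw [Prod.snd_sub] at h5
  omega

lemma Gr.add {r : ℤ} {f h : B} (h1 : Gr r f) (h2 : Gr r h) : Gr r (f + h) := by
  intro p hp
  rw [A_add] at hp
  by_cases h3 : A f p = 0
  · exact h2 p (by rwa [h3, zero_add] at hp)
  · exact h1 p h3

lemma gr_io (α : K) : Gr 0 (io α) := by
  intro p hp
  rw [A_io] at hp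
  split_ifs at hp with h
  · simp [h]
  · exact absurd rfl hp

lemma Gr.congr {r r' : ℤ} {f : B} (h : Gr r f) (hr : (3 : ℤ) ∣ r - r') : Gr r' f := by
  intro p hp
  have := h p hp
  omega

lemma gr_split {f0 f1 f2 : B} (h0 : Gr 0 f0) (h1 : Gr 1 f1) (h2 : Gr 2 f2)
    (h : f0 + f1 + f2 = 0) : f0 = 0 ∧ f1 = 0 ∧ f2 = 0 := by
  have key : ∀ p, A f0 p = 0 ∧ A f1 p = 0 ∧ A f2 p = 0 := by
    intro p
    have e := congrArg (fun f => A f p) h
    simp only [A_add, A_zero] at e
    have a0 := h0 p
    have a1 := h1 p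
    have a2 := h2 p
    by_cases c0 : A f0 p = 0 <;> by_cases c1 : A f1 p = 0 <;> by_cases c2 : A f2 p = 0 <;>
      first
      | exact ⟨c0, c1, c2⟩
      | (exfalso; have := a0 c0; have := a1 c1; omega)
      | (exfalso; have := a0 c0; have := a2 c2; omega)
      | (exfalso; have := a1 c1; have := a2 c2; omega)
      | simp_all
  exact ⟨A_ext fun p => by rw [(key p).1, A_zero], A_ext fun p => by rw [(key p).2.1, A_zero],
    A_ext fun p => by rw [(key p).2.2, A_zero]⟩

/-- The coefficient of `z ^ n`, a series in the parameter. -/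
noncomputable def col (n : ℤ) (f : B) : K where
  coeff s := A f (s, n)
  isPWO_support' := f.isPWO_support.mono fun s hs h => hs (by
    have h' : f.coeff s = 0 := h
    simp [A, h'])

lemma col_coeff (n : ℤ) (f : B) (s : ℤ) : (col n f).coeff s = A f (s, n) := rfl

lemma col_add (n : ℤ) (f h : B) : col n (f + h) = col n f + col n h := by
  ext s
  simp [col_coeff, A_add]

lemma col_io_mul (n : ℤ) (α : K) (f : B) : col n (io α * f) = α * col n f := by
  ext s
  rw [col_coeff, HahnSeries.coeff_mul_right' f.isPWO_support (fun s hs h => hs (by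
    have h' : f.coeff s = 0 := h
    simp [col_coeff, A, h']))]
  unfold A
  rw [HahnSeries.coeff_mul_left' α.isPWO_support (fun s hs h => hs (by
    have h' : α.coeff s = 0 := h
    simp [io, h'])), AddMonoidAlgebra.coeff_sum, Finsupp.finsetSum_apply]
  refine sum_congr rfl fun ij _ => ?_
  rw [io, hm_coeff, ← LaurentPolynomial.smul_eq_C_mul, col_coeff]
  rfl

end Pool.Agent.Lib.MP_6e81d8_ag.H87
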