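import Pool.Agent.Lib.MP_6e81d8_ag.H87.Ser

/-!
The three theta functions of degree three, and the relations of low degree between them.
-/

set_option autoImplicit false

namespace Pool.Agent.Lib.MP_6e81d8_ag.H87

open Finset LaurentPolynomial

/-- The two integers fixing the period and the position of the line bundle. -/
structure Par where
  /-- Half of the second difference of the exponent. -/
  b : ℤ
  /-- The linear term of the exponent. -/
  g : ℤ
  hb : 0 < b
  hn : ¬ b ∣ g

variable (P : Par)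

/-- The order in the parameter of the coefficient of `z ^ n`. -/
def w (n : ℤ) : ℤ := P.b * (n * (n - 1)) - P.g * n

lemma w_inj : Function.Injective (w P) := by
  intro n n' h
  by_contra hne
  have h1 : (n - n') * (P.b * (n + n' - 1) - P.g) = 0 := by
    unfold w at h
    linear_combination h
  have h2 := (mul_eq_zero.mp h1).resolve_left (sub_ne_zero.mpr hne)
  exact P.hn ⟨n + n' - 1, by linarith⟩

lemma w_bdd (n : ℤ) : -(P.g + 1) ^ 2 ≤ w P n := by
  have h1 : 0 ≤ n * (n - 1) := by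
    rcases le_or_gt n 0 with h | h
    · nlinarith
    · nlinarith
  have h2 : n * (n - 1) ≤ P.b * (n * (n - 1)) := le_mul_of_one_le_left h1 P.hb
  unfold w
  nlinarith [sq_nonneg (2 * n - (P.g + 1)), sq_nonneg (P.g + 1)]

open Classical in
/-- The theta function whose exponents are congruent to `r` modulo three. -/
noncomputable def th (r : ℤ) : B :=
  HahnSeries.ofSuppBddBelow
    (fun s => if h : ∃ n, w P n = s ∧ (3 : ℤ) ∣ n - r then (T h.choose : L) else 0)
    ⟨-(P.g + 1) ^ 2, fun s hs => by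
      by_contra hc
      apply hs
      refine dif_neg ?_
      rintro ⟨n, hn, -⟩
      exact hc (hn ▸ w_bdd P n)⟩

lemma th_coeff_pos {r n : ℤ} (h : (3 : ℤ) ∣ n - r) : (th P r).coeff (w P n) = T n := by
  have h1 : ∃ n', w P n' = w P n ∧ (3 : ℤ) ∣ n' - r := ⟨n, rfl, h⟩
  rw [th, HahnSeries.coeff_ofSuppBddBelow, dif_pos h1, w_inj P h1.choose_spec.1]

lemma th_coeff_neg {r s : ℤ} (h : ¬ ∃ n, w P n = s ∧ (3 : ℤ) ∣ n - r) :
    (th P r).coeff s = 0 := by
  rw [th, HahnSeries.coeff_ofSuppBddBelow, dif_neg h]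

attribute [irreducible] th

lemma A_th (r : ℤ) (p : ℤ × ℤ) :
    A (th P r) p = if w P p.2 = p.1 ∧ (3 : ℤ) ∣ p.2 - r then 1 else 0 := by
  unfold A
  by_cases h : ∃ n, w P n = p.1 ∧ (3 : ℤ) ∣ n - r
  · obtain ⟨n, h1, h2⟩ := h
    rw [← h1, th_coeff_pos P h2, T_apply]
    by_cases h3 : n = p.2
    · rw [if_pos h3, if_pos ⟨by rw [h3], h3 ▸ h2⟩]
    · rw [if_neg h3, if_neg fun h4 => h3 (w_inj P h4.1).symm]
  · rw [th_coeff_neg P h, if_neg fun h4 => h ⟨_, h4⟩]
    rfl

lemma rel_th (r : ℤ) : Rel (2 * P.b) P.g 1 (th P r) (th P (r + 1)) := by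
  intro p
  rw [A_th, A_th]
  have h1 : w P (p.2 + 1) = w P p.2 + 2 * P.b * p.2 - P.g := by
    unfold w
    ring
  refine if_congr ?_ rfl rfl
  simp only [Sh, Equiv.coe_fn_mk, Nat.cast_one, h1]
  constructor
  · rintro ⟨h2, h3⟩
    exact ⟨by linarith, by omega⟩
  · rintro ⟨h2, h3⟩
    exact ⟨by linarith, by omega⟩

lemma th_congr {r r' : ℤ} (h : (3 : ℤ) ∣ r - r') : th P r = th P r' := by
  refine A_ext fun p => ?_
  rw [A_th, A_th]
  refine if_congr (and_congr_right fun _ => ?_) rfl rfl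
  omega

lemma gr_th (r : ℤ) : Gr r (th P r) := by
  intro p hp
  rw [A_th] at hp
  split_ifs at hp with h
  · exact h.2
  · exact absurd rfl hp

lemma T_ne_zero (n : ℤ) : (T n : L) ≠ 0 := (isUnit_T n).ne_zero

lemma th_ne_zero (r : ℤ) : th P r ≠ 0 := by
  intro h
  have := th_coeff_pos P (r := r) (n := r) (by simp)
  rw [h] at this
  exact T_ne_zero r this.symm

lemma th_lead (r : ℤ) : ∃ n, (3 : ℤ) ∣ n - r ∧ (th P r).leadingCoeff = T n := by
  have h1 : (th P r).coeff (th P r).order ≠ 0 := 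
    HahnSeries.coeff_order_eq_zero.not.mpr (th_ne_zero P r)
  by_cases h : ∃ n, w P n = (th P r).order ∧ (3 : ℤ) ∣ n - r
  · obtain ⟨n, h2, h3⟩ := h
    exact ⟨n, h3, by rw [HahnSeries.leadingCoeff_eq, ← h2, th_coeff_pos P h3]⟩
  · exact absurd (th_coeff_neg P h) h1

lemma T_inj {n n' : ℤ} (h : (T n : L) = T n') : n = n' := by
  by_contra hne
  have := congrArg (fun f : L => f.coeff n) h
  simp only [T_apply, if_true, if_neg (Ne.symm hne)] at this
  exact one_ne_zero this

lemma lead_pow (f : B) (k : ℕ) : (f ^ k).leadingCoeff = f.leadingCoeff ^ k := by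
  induction k with
  | zero => simp
  | succ k ih => rw [pow_succ, pow_succ, HahnSeries.leadingCoeff_mul, ih]

lemma lead_io (α : K) : (io α).leadingCoeff = C α.leadingCoeff := by
  by_cases h : α = 0
  · simp [h]
  have hC : ∀ c : ℂ, (C c : L) = 0 ↔ c = 0 := fun c =>
    ⟨fun h => by simpa using congrArg (fun f : L => f.coeff 0) h, fun h => by simp [h]⟩
  have h1 : io α ≠ 0 := fun h0 => h (io_injective (by rw [h0, map_zero]))
  have h2 : (io α).order = α.order := by
    apply le_antisymm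
    · apply HahnSeries.order_le_of_coeff_ne_zero
      rw [io, hm_coeff, Ne, hC]
      exact HahnSeries.coeff_order_eq_zero.not.mpr h
    · apply HahnSeries.order_le_of_coeff_ne_zero
      have := HahnSeries.coeff_order_eq_zero.not.mpr h1
      rw [io, hm_coeff, hC] at this
      exact this
  rw [HahnSeries.leadingCoeff_eq, HahnSeries.leadingCoeff_eq, h2, io, hm_coeff]

attribute [local irreducible] io

/-- Series whose leading coefficients are distinct monomials are independent. -/
lemma indep_of_lead {ι : Type} (s : Finset ι) (f : ι → B) (ε : ι → ℤ) (κ : ι → ℂ)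
    (hε : Set.InjOn ε s) (hf : ∀ i ∈ s, (f i).leadingCoeff = C (κ i) * T (ε i))
    (h : ∑ i ∈ s, f i = 0) : ∀ i ∈ s, f i = 0 := by
  classical
  by_contra hc
  push Not at hc
  obtain ⟨i0, hi0, hmin⟩ := exists_min_image (s.filter fun i => f i ≠ 0) (fun i => (f i).order)
    (by obtain ⟨i, h1, h2⟩ := hc; exact ⟨i, mem_filter.mpr ⟨h1, h2⟩⟩)
  obtain ⟨hi1, hi2⟩ := mem_filter.mp hi0
  have h1 := congrArg (fun F => A F ((f i0).order, ε i0)) h
  simp only [A_sum, A_zero] at h1
  rw [sum_eq_single i0] at h1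
  · unfold A at h1
    simp only at h1
    rw [← HahnSeries.leadingCoeff_eq, hf i0 hi1, ← single_eq_C_mul_T] at h1
    have h2 : κ i0 = 0 := by
      rwa [AddMonoidAlgebra.coeff_single, Finsupp.single_eq_same] at h1
    have h3 := hf i0 hi1
    rw [h2, map_zero, zero_mul] at h3
    exact hi2 (HahnSeries.leadingCoeff_eq_zero.mp h3)
  · intro i hi hne
    by_cases h0 : f i = 0
    · rw [h0, A_zero]
    unfold A
    simp only
    rcases (hmin i (mem_filter.mpr ⟨hi, h0⟩)).eq_or_lt with h2 | h2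
    · rw [h2, ← HahnSeries.leadingCoeff_eq, hf i hi, ← single_eq_C_mul_T,
        AddMonoidAlgebra.coeff_single, Finsupp.single_eq_of_ne]
      exact fun h3 => hne (hε hi hi1 h3.symm)
    · rw [HahnSeries.coeff_eq_zero_of_lt_order h2]
      rfl
  · exact fun h2 => absurd hi1 h2

/-- There is no relation between two of the theta functions. -/
lemma indep_two (e : ℕ) (c : ℕ → K)
    (h : ∑ a ∈ range (e + 1), io (c a) * th P 0 ^ (e - a) * th P 1 ^ a = 0) :
    ∀ a ∈ range (e + 1), c a = 0 := by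
  obtain ⟨n0, h0, l0⟩ := th_lead P 0
  obtain ⟨n1, h1, l1⟩ := th_lead P 1
  intro a ha
  have := indep_of_lead _ _ (fun a : ℕ => ((e - a : ℕ) : ℤ) * n0 + a * n1)
    (fun a => (c a).leadingCoeff) ?_ ?_ h a ha
  · rcases mul_eq_zero.mp this with h2 | h2
    · rcases mul_eq_zero.mp h2 with h3 | h3
      · exact io_injective (by rw [h3, map_zero])
      · exact absurd h3 (pow_ne_zero _ (th_ne_zero P 0))
    · exact absurd h2 (pow_ne_zero _ (th_ne_zero P 1))
  · intro i hi j hj hij
    have hi' : i ≤ e := by simpa [Nat.lt_succ_iff] using hi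
    have hj' : j ≤ e := by simpa [Nat.lt_succ_iff] using hj
    simp only [Nat.cast_sub hi', Nat.cast_sub hj'] at hij
    have h2 : ((i : ℤ) - j) * (n1 - n0) = 0 := by linear_combination hij
    have h3 := (mul_eq_zero.mp h2).resolve_right (by omega)
    omega
  · intro i _
    rw [HahnSeries.leadingCoeff_mul, HahnSeries.leadingCoeff_mul, lead_io, lead_pow, lead_pow, l0,
      l1, T_pow, T_pow, T_add, mul_assoc]

lemma pair_shift {r : ℤ} {α β : K}
    (h : io α * th P r ^ 2 + io β * (th P (r + 1) * th P (r + 2)) = 0) :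
    io α * th P (r + 1) ^ 2 + io β * (th P (r + 1 + 1) * th P (r + 1 + 2)) = 0 := by
  have h1 := (rel_io (b := 2 * P.b) (g := P.g) α).mul ((rel_th P r).pow 2)
  have h2 := (rel_io (b := 2 * P.b) (g := P.g) β).mul ((rel_th P (r + 1)).mul (rel_th P (r + 2)))
  have h3 := (h1.add h2).eq_zero h
  rwa [show r + 2 + 1 = r + 1 + 2 by ring] at h3

lemma pair_indep {r : ℤ} {α β : K}
    (h : io α * th P r ^ 2 + io β * (th P (r + 1) * th P (r + 2)) = 0) : α = 0 ∧ β = 0 := by
  have h1 := pair_shift P h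
  rw [th_congr P (r := r + 1 + 1) (r' := r + 2) (by omega),
    th_congr P (r := r + 1 + 2) (r' := r) (by omega)] at h1
  have h2 : io α * (th P r ^ 3 - th P (r + 1) ^ 3) = 0 := by
    linear_combination th P r * h - th P (r + 1) * h1
  have h3 : th P r ^ 3 - th P (r + 1) ^ 3 ≠ 0 := by
    intro h4
    obtain ⟨n0, h0, l0⟩ := th_lead P r
    obtain ⟨n1, h1, l1⟩ := th_lead P (r + 1)
    have h5 := congrArg HahnSeries.leadingCoeff (sub_eq_zero.mp h4)
    rw [lead_pow, lead_pow, l0, l1, T_pow, T_pow] at h5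
    have := T_inj h5
    omega
  have h4 := (mul_eq_zero.mp h2).resolve_right h3
  rw [h4, zero_mul, zero_add] at h
  have h5 := (mul_eq_zero.mp h).resolve_right (mul_ne_zero (th_ne_zero P _) (th_ne_zero P _))
  exact ⟨io_injective (by rw [h4, map_zero]), io_injective (by rw [h5, map_zero])⟩

/-- There is no quadratic relation. -/
lemma conic {c00 c10 c20 c01 c11 c02 : K}
    (h : io c00 * th P 0 ^ 2 + io c10 * (th P 0 * th P 1) + io c20 * th P 1 ^ 2 +
      io c01 * (th P 0 * th P 2) + io c11 * (th P 1 * th P 2) + io c02 * th P 2 ^ 2 = 0) :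
    c00 = 0 ∧ c10 = 0 ∧ c20 = 0 ∧ c01 = 0 ∧ c11 = 0 ∧ c02 = 0 := by
  have g0 := gr_th P 0
  have g1 := gr_th P 1
  have g2 := gr_th P 2
  obtain ⟨h0, h1, h2⟩ := gr_split
    (f0 := io c00 * th P 0 ^ 2 + io c11 * (th P 1 * th P 2))
    (f1 := io c02 * th P 2 ^ 2 + io c10 * (th P 0 * th P 1))
    (f2 := io c20 * th P 1 ^ 2 + io c01 * (th P 2 * th P 0))
    (by
      rw [sq]
      exact (((gr_io _).mul (g0.mul g0)).congr (by norm_num)).add
        (((gr_io _).mul (g1.mul g2)).congr (by norm_num)))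
    (by
      rw [sq]
      exact (((gr_io _).mul (g2.mul g2)).congr (by norm_num)).add
        (((gr_io _).mul (g0.mul g1)).congr (by norm_num)))
    (by
      rw [sq]
      exact (((gr_io _).mul (g1.mul g1)).congr (by norm_num)).add
        (((gr_io _).mul (g2.mul g0)).congr (by norm_num)))
    (by linear_combination h)
  have a0 := pair_indep P (r := 0) (α := c00) (β := c11) (by simpa using h0)
  have a1 := pair_indep P (r := 2) (α := c02) (β := c10) (by
    rw [th_congr P (r := 2 + 1) (r' := 0) (by norm_num),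
      th_congr P (r := 2 + 2) (r' := 1) (by norm_num)]
    exact h1)
  have a2 := pair_indep P (r := 1) (α := c20) (β := c01) (by
    rw [th_congr P (r := 1 + 1) (r' := 2) (by norm_num),
      th_congr P (r := 1 + 2) (r' := 0) (by norm_num)]
    exact h2)
  exact ⟨a0.1, a1.2, a2.1, a2.2, a0.2, a1.1⟩

/-- A cubic form of Hesse type. -/
noncomputable def hesse (c : Fin 4 → K) (r : ℤ) : B :=
  io (c 0) * th P r ^ 3 + io (c 1) * th P (r + 1) ^ 3 + io (c 2) * th P (r + 2) ^ 3 +
    io (c 3) * (th P r * th P (r + 1) * th P (r + 2))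

lemma rel_hesse (c : Fin 4 → K) (r : ℤ) :
    Rel (2 * P.b) P.g 3 (hesse P c r) (hesse P c (r + 1)) := by
  have i := fun α => rel_io (b := 2 * P.b) (g := P.g) α
  have := ((((i (c 0)).mul ((rel_th P r).pow 3)).add ((i (c 1)).mul ((rel_th P (r + 1)).pow 3))).add
    ((i (c 2)).mul ((rel_th P (r + 2)).pow 3))).add
    ((i (c 3)).mul (((rel_th P r).mul (rel_th P (r + 1))).mul (rel_th P (r + 2))))
  rwa [show r + 2 + 1 = r + 1 + 2 by ring] at this

lemma gr_hesse (c : Fin 4 → K) : Gr 0 (hesse P c 0) := by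
  have cube : ∀ (r : ℤ) (α : K), Gr 0 (io α * th P r ^ 3) := fun r α => by
    rw [pow_three]
    exact ((gr_io _).mul ((gr_th P r).mul ((gr_th P r).mul (gr_th P r)))).congr ⟨r, by ring⟩
  exact (((cube _ _).add (cube _ _)).add (cube _ _)).add
    (((gr_io _).mul (((gr_th P _).mul (gr_th P _)).mul (gr_th P _))).congr (by norm_num))

lemma exists_hesse : ∃ c : Fin 4 → K, c ≠ 0 ∧ hesse P c 0 = 0 := by
  let f : Fin 4 → B := ![th P 0 ^ 3, th P (0 + 1) ^ 3, th P (0 + 2) ^ 3,
    th P 0 * th P (0 + 1) * th P (0 + 2)]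
  let v : Fin 4 → Fin 3 → K := fun i j => col (3 * (j : ℕ)) (f i)
  have h1 : ¬ LinearIndependent K v := fun h => by
    have := h.fintype_card_le_finrank
    simp at this
  obtain ⟨c, hc, i, hi⟩ := Fintype.not_linearIndependent_iff.mp h1
  refine ⟨c, fun h => hi (by rw [h]; rfl), ?_⟩
  have h2 : ∀ j : Fin 3, ∀ s, A (hesse P c 0) (s, 3 * (j : ℕ)) = 0 := by
    intro j s
    have h3 := congrFun hc j
    simp only [Fin.sum_univ_four, Pi.add_apply, Pi.smul_apply, smul_eq_mul, Pi.zero_apply, v]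
      at h3
    rw [← col_io_mul, ← col_io_mul, ← col_io_mul, ← col_io_mul, ← col_add, ← col_add,
      ← col_add] at h3
    have h4 : hesse P c 0 = io (c 0) * f 0 + io (c 1) * f 1 + io (c 2) * f 2 + io (c 3) * f 3 :=
      rfl
    rw [← col_coeff, h4, h3, HahnSeries.coeff_zero]
  have h3 : hesse P c (0 + 1 + 1 + 1) = hesse P c 0 := by
    unfold hesse
    rw [th_congr P (r := 0 + 1 + 1 + 1) (r' := 0) (by norm_num),
      th_congr P (r := 0 + 1 + 1 + 1 + 1) (r' := 0 + 1) (by norm_num),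
      th_congr P (r := 0 + 1 + 1 + 1 + 2) (r' := 0 + 2) (by norm_num)]
  have h3' := rel_hesse P c (0 + 1 + 1)
  rw [h3] at h3'
  have key := theta_shift (rel_hesse P c 0) (rel_hesse P c (0 + 1)) h3'
  have hg := gr_hesse P c
  generalize hesse P c 0 = F at h2 key hg ⊢
  have h4 : ∀ (j : Fin 3) (i : ℤ), ∀ s, A F (s, 3 * (j : ℕ) + 9 * i) = 0 := by
    intro j i
    induction i using Int.induction_on with
    | zero => simpa using h2 j
    | succ i ih =>
      intro s
      have := key (s - 3 * (2 * P.b * (3 * (j : ℕ) + 9 * i) + 2 * P.b * (3 : ℕ) - (3 : ℕ) * P.g),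
        3 * (j : ℕ) + 9 * i)
      rw [ih] at this
      rw [← this]
      congr 1
      ext
      · simp
      · simp only
        push_cast
        ring
    | pred i ih =>
      intro s
      rw [← key, ← ih (s + 3 * (2 * P.b * (3 * (j : ℕ) + 9 * (-i - 1)) + 2 * P.b * (3 : ℕ) -
        (3 : ℕ) * P.g))]
      congr 1
      ext
      · simp
      · simp only
        push_cast
        ring
  refine A_ext fun p => ?_
  rw [A_zero]
  by_contra h5
  obtain ⟨k, hk⟩ := hg p h5
  have h6 : 0 ≤ k % 3 := Int.emod_nonneg _ (by norm_num)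
  have h7 := h4 ⟨(k % 3).toNat, by omega⟩ (k / 3) p.1
  apply h5
  rw [← h7]
  congr 1
  ext
  · rfl
  · simp only
    omega

/-- The cubic relation, monic in the last theta function. -/
lemma exists_cubic : ∃ a b δ : K, th P 2 ^ 3 + io δ * (th P 0 * th P 1 * th P 2) +
    io a * th P 1 ^ 3 + io b * th P 0 ^ 3 = 0 := by
  obtain ⟨c, hc, h0⟩ := exists_hesse P
  have h1 := (rel_hesse P c 0).eq_zero h0
  have h2 := (rel_hesse P c (0 + 1)).eq_zero h1
  unfold hesse at h0 h1 h2
  rw [th_congr P (r := 0 + 1 + 2) (r' := 0) (by norm_num)] at h1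
  rw [th_congr P (r := 0 + 1 + 1 + 1) (r' := 0) (by norm_num),
    th_congr P (r := 0 + 1 + 1 + 2) (r' := 1) (by norm_num)] at h2
  norm_num at h0 h1 h2
  have aux : ∀ u a b δ : K, u ≠ 0 → io u * th P 2 ^ 3 + io δ * (th P 0 * th P 1 * th P 2) +
      io a * th P 1 ^ 3 + io b * th P 0 ^ 3 = 0 → ∃ a b δ : K, th P 2 ^ 3 +
      io δ * (th P 0 * th P 1 * th P 2) + io a * th P 1 ^ 3 + io b * th P 0 ^ 3 = 0 := by
    intro u a b δ hu h
    refine ⟨u⁻¹ * a, u⁻¹ * b, u⁻¹ * δ, ?_⟩
    have h3 : io u⁻¹ * io u = 1 := by rw [← map_mul, inv_mul_cancel₀ hu, map_one]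
    simp only [map_mul]
    linear_combination io u⁻¹ * h - th P 2 ^ 3 * h3
  by_cases c2 : c 2 = 0
  · by_cases c1 : c 1 = 0
    · by_cases c0 : c 0 = 0
      · exfalso
        rw [c0, c1, c2, map_zero, zero_mul, zero_mul, zero_mul, zero_add, zero_add, zero_add] at h0
        have h3 := (mul_eq_zero.mp h0).resolve_right
          (mul_ne_zero (mul_ne_zero (th_ne_zero P _) (th_ne_zero P _)) (th_ne_zero P _))
        have c3 : c 3 = 0 := io_injective (by rw [h3, map_zero])
        apply hc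
        funext i
        fin_cases i
        exacts [c0, c1, c2, c3]
      · exact aux (c 0) (c 2) (c 1) (c 3) c0 (by linear_combination h2)
    · exact aux (c 1) (c 0) (c 2) (c 3) c1 (by linear_combination h1)
  · exact aux (c 2) (c 1) (c 0) (c 3) c2 (by linear_combination h0)

end Pool.Agent.Lib.MP_6e81d8_ag.H87
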